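import Mathlib

set_option autoImplicit false

open Set Filter Topology Metric

namespace Pool.Agent.H369R3.Clarke

variable {E F : Type*} [NormedAddCommGroup E] [NormedSpace ℝ E] [NormedAddCommGroup F]
  [NormedSpace ℝ F]

/-- the iterates of a step map -/
def iter (P : E × F → E) (x₀ : E) (y : F) : ℕ → E
  | 0 => x₀
  | k + 1 => P (iter P x₀ y k, y)

omit [NormedSpace ℝ E] [NormedSpace ℝ F] in
/-- Iterating a continuous descent step produces a continuous calm selection. -/
theorem exists_selection [CompleteSpace E] (g : E → F) (hg : Continuous g) (x₀ : E) (R a : ℝ)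
    (hR : 0 < R) (ha : 0 < a) (P : E × F → E)
    (hP : ContinuousOn P (ball x₀ R ×ˢ univ))
    (h1 : ∀ x ∈ ball x₀ R, ∀ y, a * ‖P (x, y) - x‖ ≤ ‖y - g x‖ - ‖y - g (P (x, y))‖)
    (h2 : ∀ x ∈ ball x₀ R, ∀ y, g x ≠ y → ‖y - g (P (x, y))‖ < ‖y - g x‖) :
    ∃ s : F → E, ContinuousOn s (ball (g x₀) (a * R)) ∧ s (g x₀) = x₀ ∧
      (∀ y ∈ ball (g x₀) (a * R), g (s y) = y) ∧
      (∀ y ∈ ball (g x₀) (a * R), s y ∈ ball x₀ R) ∧
      ∀ y ∈ ball (g x₀) (a * R), ‖s y - x₀‖ ≤ a⁻¹ * ‖y - g x₀‖ := by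
  classical
  set X : F → ℕ → E := fun y k => iter P x₀ y k with hX
  set e : F → ℕ → ℝ := fun y k => ‖y - g (X y k)‖ with he
  have hX0 : ∀ y, X y 0 = x₀ := fun y => rfl
  have hXs : ∀ y k, X y (k + 1) = P (X y k, y) := fun y k => rfl
  -- the iterates stay in the ball
  have key : ∀ y ∈ ball (g x₀) (a * R), ∀ k, a * ‖X y k - x₀‖ ≤ e y 0 - e y k ∧
      X y k ∈ ball x₀ R := by
    intro y hy k
    have hy' : e y 0 < a * R := by
      simp only [he, hX0]
      rwa [mem_ball, dist_eq_norm] at hy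
    induction k with
    | zero =>
      refine ⟨by simp [hX0], ?_⟩
      rw [hX0]; exact mem_ball_self hR
    | succ k ih =>
      obtain ⟨ih1, ih2⟩ := ih
      have h3 := h1 (X y k) ih2 y
      rw [← hXs] at h3
      have h4 : a * ‖X y (k + 1) - x₀‖ ≤ a * ‖X y (k + 1) - X y k‖ + a * ‖X y k - x₀‖ := by
        rw [← mul_add]
        apply mul_le_mul_of_nonneg_left _ ha.le
        exact norm_sub_le_norm_sub_add_norm_sub _ _ _
      have h5 : a * ‖X y (k + 1) - x₀‖ ≤ e y 0 - e y (k + 1) := by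
        have : e y (k+1) = ‖y - g (X y (k + 1))‖ := rfl
        have : e y k = ‖y - g (X y k)‖ := rfl
        linarith
      refine ⟨h5, ?_⟩
      rw [mem_ball, dist_eq_norm]
      have h6 : 0 ≤ e y (k + 1) := norm_nonneg _
      have h7 : a * ‖X y (k + 1) - x₀‖ < a * R := by linarith
      exact lt_of_mul_lt_mul_left h7 ha.le
  have hstep : ∀ y ∈ ball (g x₀) (a * R), ∀ k, a * ‖X y (k + 1) - X y k‖ ≤ e y k - e y (k + 1) := by
    intro y hy k
    have := h1 (X y k) (key y hy k).2 y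
    rwa [← hXs] at this
  have hanti : ∀ y ∈ ball (g x₀) (a * R), ∀ k, e y (k + 1) ≤ e y k := by
    intro y hy k
    have := hstep y hy k
    have : 0 ≤ a * ‖X y (k + 1) - X y k‖ := by positivity
    linarith
  have hlong : ∀ y ∈ ball (g x₀) (a * R), ∀ k j, a * ‖X y (k + j) - X y k‖ ≤ e y k - e y (k + j) := by
    intro y hy k j
    induction j with
    | zero => simp
    | succ j ih =>
      have h3 := hstep y hy (k + j)
      have h4 : a * ‖X y (k + (j + 1)) - X y k‖ ≤
          a * ‖X y (k + j + 1) - X y (k + j)‖ + a * ‖X y (k + j) - X y k‖ := by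
        rw [← mul_add]
        apply mul_le_mul_of_nonneg_left _ ha.le
        exact norm_sub_le_norm_sub_add_norm_sub _ _ _
      have h5 : e y (k + (j + 1)) = e y (k + j + 1) := rfl
      linarith
  -- convergence
  have hcauchy : ∀ y ∈ ball (g x₀) (a * R), CauchySeq (X y) := by
    intro y hy
    have hea : Antitone (e y) := antitone_nat_of_succ_le (hanti y hy)
    have hbdd : BddBelow (range (e y)) := ⟨0, by rintro _ ⟨k, rfl⟩; exact norm_nonneg _⟩
    have hlim := tendsto_atTop_ciInf hea hbdd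
    have hc : CauchySeq (e y) := hlim.cauchySeq
    rw [Metric.cauchySeq_iff'] at hc ⊢
    intro ε hε
    obtain ⟨N, hN⟩ := hc (a * ε) (by positivity)
    refine ⟨N, fun n hn => ?_⟩
    obtain ⟨j, rfl⟩ := Nat.exists_eq_add_of_le hn
    have h3 := hlong y hy N j
    have h4 := hN (N + j) hn
    rw [Real.dist_eq] at h4
    have h5 : e y N - e y (N + j) ≤ |e y (N + j) - e y N| := by
      rw [abs_sub_comm]; exact le_abs_self _
    rw [dist_eq_norm]
    exact lt_of_mul_lt_mul_left (h3.trans_lt (h5.trans_lt h4)) ha.le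
  choose! s hs using fun y hy => cauchySeq_tendsto_of_complete (hcauchy y hy)
  have hy₀ : g x₀ ∈ ball (g x₀) (a * R) := mem_ball_self (by positivity)
  -- error estimate
  have herr : ∀ y ∈ ball (g x₀) (a * R), ∀ k, a * ‖s y - X y k‖ ≤ e y k - ‖y - g (s y)‖ := by
    intro y hy k
    have h3 : Tendsto (fun j => a * ‖X y (k + j) - X y k‖) atTop (𝓝 (a * ‖s y - X y k‖)) := by
      have : Tendsto (fun j => X y (k + j)) atTop (𝓝 (s y)) := by
        have h := (tendsto_add_atTop_iff_nat k).2 (hs y hy)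
        simpa [add_comm] using h
      exact ((this.sub_const _).norm).const_mul a
    have h4 : Tendsto (fun j => e y k - e y (k + j)) atTop (𝓝 (e y k - ‖y - g (s y)‖)) := by
      have : Tendsto (fun j => X y (k + j)) atTop (𝓝 (s y)) := by
        have h := (tendsto_add_atTop_iff_nat k).2 (hs y hy)
        simpa [add_comm] using h
      exact (((hg.tendsto (s y)).comp this).const_sub y).norm.const_sub _
    exact le_of_tendsto_of_tendsto' h3 h4 (fun j => hlong y hy k j)
  have hball : ∀ y ∈ ball (g x₀) (a * R), a * ‖s y - x₀‖ ≤ ‖y - g x₀‖ ∧ s y ∈ ball x₀ R := by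
    intro y hy
    have h3 := herr y hy 0
    have h4 : e y 0 = ‖y - g x₀‖ := rfl
    rw [hX0] at h3
    have h5 : 0 ≤ ‖y - g (s y)‖ := norm_nonneg _
    refine ⟨by linarith, ?_⟩
    rw [mem_ball, dist_eq_norm] at hy ⊢
    have h6 : a * ‖s y - x₀‖ < a * R := by linarith
    exact lt_of_mul_lt_mul_left h6 ha.le
  have hsol : ∀ y ∈ ball (g x₀) (a * R), g (s y) = y := by
    intro y hy
    by_contra hne
    have hmem := (hball y hy).2
    have h3 := h2 (s y) hmem y hne
    have hcont : ContinuousAt P (s y, y) := by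
      apply hP.continuousAt
      exact prod_mem_nhds (isOpen_ball.mem_nhds hmem) univ_mem
    have h4 : Tendsto (fun k => P (X y k, y)) atTop (𝓝 (P (s y, y))) := by
      apply hcont.tendsto.comp
      exact (hs y hy).prodMk_nhds tendsto_const_nhds
    have h5 : Tendsto (fun k => X y (k + 1)) atTop (𝓝 (s y)) :=
      (tendsto_add_atTop_iff_nat 1).2 (hs y hy)
    have h6 : P (s y, y) = s y := tendsto_nhds_unique h4 h5
    rw [h6] at h3
    exact lt_irrefl _ h3
  -- continuity of iterates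
  have hXc : ∀ k, ContinuousOn (fun y => X y k) (ball (g x₀) (a * R)) := by
    intro k
    induction k with
    | zero => exact continuousOn_const
    | succ k ih =>
      have : (fun y => X y (k + 1)) = P ∘ (fun y => (X y k, y)) := rfl
      rw [this]
      apply hP.comp (ih.prodMk continuousOn_id)
      intro y hy
      exact ⟨(key y hy k).2, mem_univ _⟩
  have hec : ∀ k, ContinuousOn (fun y => e y k) (ball (g x₀) (a * R)) := by
    intro k
    exact (continuousOn_id.sub (hg.comp_continuousOn (hXc k))).norm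
  refine ⟨s, ?_, ?_, hsol, fun y hy => (hball y hy).2, ?_⟩
  · intro y₀ hyy
    rw [Metric.continuousWithinAt_iff']
    intro ε hε
    -- choose k with e y₀ k small
    have hek : Tendsto (fun k => e y₀ k) atTop (𝓝 0) := by
      have h3 : Tendsto (fun k => ‖y₀ - g (X y₀ k)‖) atTop (𝓝 ‖y₀ - g (s y₀)‖) :=
        (((hg.tendsto (s y₀)).comp (hs y₀ hyy)).const_sub y₀).norm
      rw [hsol y₀ hyy, sub_self, norm_zero] at h3
      exact h3
    obtain ⟨k, hk⟩ := (hek.eventually (gt_mem_nhds (show (0:ℝ) < a * (ε / 3) by positivity))).exists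
    have h4 : ∀ᶠ y in 𝓝[ball (g x₀) (a * R)] y₀, e y k < a * (ε / 3) :=
      (hec k y₀ hyy).eventually (gt_mem_nhds hk)
    have h5 : ∀ᶠ y in 𝓝[ball (g x₀) (a * R)] y₀, dist (X y k) (X y₀ k) < ε / 3 :=
      (Metric.continuousWithinAt_iff'.1 (hXc k y₀ hyy)) (ε / 3) (by positivity)
    filter_upwards [h4, h5, self_mem_nhdsWithin] with y hy4 hy5 hy6
    have h7 : ‖s y - X y k‖ < ε / 3 := by
      have := herr y hy6 k
      have h0 : 0 ≤ ‖y - g (s y)‖ := norm_nonneg _
      exact lt_of_mul_lt_mul_left (a := a) (by linarith) ha.le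
    have h8 : ‖s y₀ - X y₀ k‖ < ε / 3 := by
      have := herr y₀ hyy k
      have h0 : 0 ≤ ‖y₀ - g (s y₀)‖ := norm_nonneg _
      exact lt_of_mul_lt_mul_left (a := a) (by linarith) ha.le
    rw [← dist_eq_norm] at h7 h8
    calc dist (s y) (s y₀) ≤ dist (s y) (X y k) + dist (X y k) (X y₀ k) + dist (X y₀ k) (s y₀) :=
          dist_triangle4 _ _ _ _
      _ < ε / 3 + ε / 3 + ε / 3 := by
          rw [dist_comm (X y₀ k)]; gcongr
      _ = ε := by ring
  · have h3 := (hball _ hy₀).1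
    rw [sub_self, norm_zero] at h3
    have h4 : ‖s (g x₀) - x₀‖ ≤ 0 := by
      by_contra hh
      push Not at hh
      have : 0 < a * ‖s (g x₀) - x₀‖ := by positivity
      linarith
    exact sub_eq_zero.1 (norm_le_zero_iff.1 h4)
  · intro y hy
    have h3 := (hball y hy).1
    rw [inv_mul_eq_div, le_div_iff₀ ha]
    linarith

/-- From local uniform descent directions to a continuous descent step map. -/
theorem exists_step (g : E → F) (K : NNReal) (hg : LipschitzWith K g) (x₀ : E) (R a : ℝ)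
    (ha : 0 < a)
    (hdesc : ∀ x ∈ ball x₀ R, ∀ y, g x ≠ y → ∃ v : E, ‖v‖ ≤ 1 ∧ ∃ ρ : ℝ, 0 < ρ ∧
      ∀ x' y', dist (x', y') (x, y) < ρ → ∀ t : ℝ, 0 ≤ t → t < ρ →
        ‖y' - g (x' + t • v)‖ ≤ ‖y' - g x'‖ - 2 * a * t) :
    ∃ P : E × F → E, ContinuousOn P (ball x₀ R ×ˢ univ) ∧
      (∀ x ∈ ball x₀ R, ∀ y, a * ‖P (x, y) - x‖ ≤ ‖y - g x‖ - ‖y - g (P (x, y))‖) ∧
      (∀ x ∈ ball x₀ R, ∀ y, g x ≠ y → ‖y - g (P (x, y))‖ < ‖y - g x‖) := by
  classical
  set D : Set (E × F) := {p | p.1 ∈ ball x₀ R ∧ g p.1 ≠ p.2} with hD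
  have hDo : IsOpen D := by
    apply IsOpen.inter
    · exact isOpen_ball.preimage continuous_fst
    · exact isOpen_ne_fun (hg.continuous.comp continuous_fst) continuous_snd
  let S : E × F → Set E := fun p => {v | ‖v‖ ≤ 1 ∧ ∃ ρ : ℝ, 0 < ρ ∧
      ∀ x' y', dist (x', y') p < ρ → ∀ t : ℝ, 0 ≤ t → t < ρ →
        ‖y' - g (x' + t • v)‖ ≤ ‖y' - g x'‖ - 2 * a * t}
  have hSconv : ∀ p : D, Convex ℝ (S p.1) := by
    rintro ⟨p, hp⟩ v₁ ⟨hv₁, ρ₁, hρ₁, h₁⟩ v₂ ⟨hv₂, ρ₂, hρ₂, h₂⟩ b c hb hc hbc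
    refine ⟨?_, min ρ₁ ρ₂ / 2, by positivity, ?_⟩
    · calc ‖b • v₁ + c • v₂‖ ≤ ‖b • v₁‖ + ‖c • v₂‖ := norm_add_le _ _
        _ = b * ‖v₁‖ + c * ‖v₂‖ := by
            rw [norm_smul, norm_smul, Real.norm_of_nonneg hb, Real.norm_of_nonneg hc]
        _ ≤ b * 1 + c * 1 := by gcongr
        _ = 1 := by linarith
    · intro x' y' hxy t ht ht'
      have hm : min ρ₁ ρ₂ ≤ ρ₁ := min_le_left _ _
      have hm2 : min ρ₁ ρ₂ ≤ ρ₂ := min_le_right _ _
      have hb1 : b ≤ 1 := by linarith
      have hc1 : c ≤ 1 := by linarith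
      have e1 := h₁ x' y' (by linarith) (t * b) (by positivity)
        (by nlinarith)
      have hd : dist (x' + (t * b) • v₁, y') p < ρ₂ := by
        have h3 : dist (x' + (t * b) • v₁, y') (x', y') ≤ t := by
          rw [Prod.dist_eq]
          simp only [dist_self]
          apply max_le _ ht
          rw [dist_eq_norm, add_sub_cancel_left, norm_smul, Real.norm_of_nonneg (by positivity)]
          calc t * b * ‖v₁‖ ≤ t * 1 * 1 := by gcongr
            _ = t := by ring
        calc dist (x' + (t * b) • v₁, y') p ≤ dist (x' + (t * b) • v₁, y') (x', y') +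
              dist (x', y') p := dist_triangle _ _ _
          _ < ρ₂ := by linarith
      have e2 := h₂ (x' + (t * b) • v₁) y' hd (t * c) (by positivity) (by nlinarith)
      have e3 : x' + t • (b • v₁ + c • v₂) = x' + (t * b) • v₁ + (t * c) • v₂ := by
        rw [smul_add, smul_smul, smul_smul, add_assoc]
      rw [e3]
      have e4 : 2 * a * (t * b) + 2 * a * (t * c) = 2 * a * t := by
        have : t * b + t * c = t := by rw [← mul_add, hbc, mul_one]
        rw [← mul_add, this]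
      linarith
  have hSloc : ∀ p : D, ∃ v : E, ∀ᶠ q : D in 𝓝 p, v ∈ S q.1 := by
    rintro ⟨p, hp⟩
    obtain ⟨v, hv, ρ, hρ, h⟩ := hdesc p.1 hp.1 p.2 hp.2
    refine ⟨v, ?_⟩
    have : ∀ᶠ q : D in 𝓝 (⟨p, hp⟩ : D), dist q.1 p < ρ / 2 := by
      have hc : Continuous (fun q : D => dist q.1 p) := continuous_subtype_val.dist continuous_const
      have := hc.tendsto (⟨p, hp⟩ : D)
      simp only [dist_self] at this
      exact this.eventually (gt_mem_nhds (by positivity))
    filter_upwards [this] with q hq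
    refine ⟨hv, ρ / 2, by positivity, ?_⟩
    intro x' y' hxy t ht ht'
    apply h x' y' _ t ht (by linarith)
    calc dist (x', y') (p.1, p.2) ≤ dist (x', y') q.1 + dist q.1 p := dist_triangle _ _ _
      _ < ρ := by linarith
  obtain ⟨V, hV⟩ := exists_continuous_forall_mem_convex_of_local_const hSconv hSloc
  -- step sizes
  let T : D → Set ℝ := fun p => {τ | 0 < τ ∧ ∀ t : ℝ, 0 ≤ t → t ≤ τ →
    ‖p.1.2 - g (p.1.1 + t • V p)‖ ≤ ‖p.1.2 - g p.1.1‖ - a * t}
  have hTconv : ∀ p : D, Convex ℝ (T p) := by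
    intro p
    apply Set.OrdConnected.convex
    refine ⟨?_⟩
    rintro τ₁ ⟨h1, h1'⟩ τ₂ ⟨h2, h2'⟩ τ ⟨hτ1, hτ2⟩
    exact ⟨by linarith, fun t ht ht' => h2' t ht (by linarith)⟩
  have hTloc : ∀ p : D, ∃ τ : ℝ, ∀ᶠ q : D in 𝓝 p, τ ∈ T q := by
    intro p
    obtain ⟨hv, ρ, hρ, h⟩ := hV p
    refine ⟨ρ / 2, ?_⟩
    have hc1 : ∀ᶠ q : D in 𝓝 p, dist q.1 p.1 < ρ := by
      have hc : Continuous (fun q : D => dist q.1 p.1) := continuous_subtype_val.dist continuous_const
      have := hc.tendsto p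
      simp only [dist_self] at this
      exact this.eventually (gt_mem_nhds (by positivity))
    have hc2 : ∀ᶠ q : D in 𝓝 p, K * ‖V q - V p‖ < a := by
      have hc : Continuous (fun q : D => K * ‖V q - V p‖) := by fun_prop
      have := hc.tendsto p
      simp only [sub_self, norm_zero, mul_zero] at this
      exact this.eventually (gt_mem_nhds ha)
    filter_upwards [hc1, hc2] with q hq1 hq2
    refine ⟨by positivity, ?_⟩
    intro t ht ht'
    have e1 := h q.1.1 q.1.2 hq1 t ht (by linarith)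
    have e2 : ‖g (q.1.1 + t • V p) - g (q.1.1 + t • V q)‖ ≤ K * (t * ‖V q - V p‖) := by
      have := hg.dist_le_mul (q.1.1 + t • V p) (q.1.1 + t • V q)
      rw [dist_eq_norm, dist_eq_norm, add_sub_add_left_eq_sub, ← smul_sub, norm_smul,
        Real.norm_of_nonneg ht, norm_sub_rev (V p)] at this
      exact this
    have e3 : ‖q.1.2 - g (q.1.1 + t • V q)‖ ≤ ‖q.1.2 - g (q.1.1 + t • V p)‖ +
        ‖g (q.1.1 + t • V p) - g (q.1.1 + t • V q)‖ := norm_sub_le_norm_sub_add_norm_sub _ _ _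
    have e4 : K * (t * ‖V q - V p‖) ≤ a * t := by nlinarith
    linarith
  obtain ⟨τ, hτ⟩ := exists_continuous_forall_mem_convex_of_local_const hTconv hTloc
  -- the step map
  let P : E × F → E := fun p => if h : p ∈ D then p.1 + τ ⟨p, h⟩ • V ⟨p, h⟩ else p.1
  have hPD : ∀ (p : E × F) (h : p ∈ D), P p = p.1 + τ ⟨p, h⟩ • V ⟨p, h⟩ := by
    intro p h; simp only [P]; rw [dif_pos h]
  have hPn : ∀ (p : E × F) (h : p ∉ D), P p = p.1 := by
    intro p h; simp only [P]; rw [dif_neg h]
  have hmain : ∀ (p : E × F) (h : p ∈ D), a * τ ⟨p, h⟩ ≤ ‖p.2 - g p.1‖ - ‖p.2 - g (P p)‖ := by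
    intro p h
    have := (hτ ⟨p, h⟩).2 (τ ⟨p, h⟩) (hτ ⟨p, h⟩).1.le le_rfl
    rw [hPD p h]
    simp only at this
    linarith
  have hnorm : ∀ (p : E × F) (h : p ∈ D), ‖P p - p.1‖ ≤ τ ⟨p, h⟩ := by
    intro p h
    rw [hPD p h, add_sub_cancel_left, norm_smul, Real.norm_of_nonneg (hτ ⟨p, h⟩).1.le]
    have := (hV ⟨p, h⟩).1
    have h0 := (hτ ⟨p, h⟩).1
    nlinarith
  have hA : ∀ p : E × F, p.1 ∈ ball x₀ R → a * ‖P p - p.1‖ ≤ ‖p.2 - g p.1‖ - ‖p.2 - g (P p)‖ := by
    intro p hp
    by_cases h : p ∈ D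
    · have h3 := hmain p h
      have h4 := hnorm p h
      nlinarith
    · rw [hPn p h]; simp
  refine ⟨P, ?_, ?_, ?_⟩
  · intro p hp
    apply ContinuousAt.continuousWithinAt
    by_cases h : p ∈ D
    · -- continuity on D
      have hco : ContinuousOn P D := by
        rw [continuousOn_iff_continuous_domRestrict]
        have : D.domRestrict P = fun q : D => q.1.1 + τ q • V q := by
          funext q
          exact hPD q.1 q.2
        rw [this]
        fun_prop
      exact hco.continuousAt (hDo.mem_nhds h)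
    · have hgp : g p.1 = p.2 := by
        by_contra hne
        exact h ⟨hp.1, hne⟩
      have hP0 : P p = p.1 := hPn p h
      rw [ContinuousAt, hP0]
      have hev : ∀ᶠ q : E × F in 𝓝 p, q.1 ∈ ball x₀ R :=
        continuous_fst.continuousAt.eventually (isOpen_ball.mem_nhds hp.1)
      have hbound : ∀ᶠ q : E × F in 𝓝 p, ‖P q - q.1‖ ≤ a⁻¹ * ‖q.2 - g q.1‖ := by
        filter_upwards [hev] with q hq
        have := hA q hq
        have h0 : 0 ≤ ‖q.2 - g (P q)‖ := norm_nonneg _
        rw [inv_mul_eq_div, le_div_iff₀ ha]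
        linarith
      have hz : Tendsto (fun q : E × F => a⁻¹ * ‖q.2 - g q.1‖) (𝓝 p) (𝓝 0) := by
        have hc : Continuous (fun q : E × F => a⁻¹ * ‖q.2 - g q.1‖) := by
          have := hg.continuous
          fun_prop
        have := hc.tendsto p
        simpa [hgp] using this
      have hd : Tendsto (fun q : E × F => P q - q.1) (𝓝 p) (𝓝 0) :=
        squeeze_zero_norm' hbound hz
      have := hd.add (continuous_fst.tendsto p)
      simpa using this
  · intro x hx y
    exact hA (x, y) hx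
  · intro x hx y hne
    have h : (x, y) ∈ D := ⟨hx, hne⟩
    have h3 := hmain (x, y) h
    have h4 := (hτ ⟨(x, y), h⟩).1
    have : 0 < a * τ ⟨(x, y), h⟩ := by positivity
    simp only at h3
    linarith

end Pool.Agent.H369R3.Clarke
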