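import Mathlib
import Pool.Agent.H369R3.ClarkeIter

set_option autoImplicit false

open Set Filter Topology Metric MeasureTheory
open scoped RealInnerProductSpace

namespace Pool.Agent.H369R3.Clarke

/-- The convex hull of a compact set in a finite-dimensional space is compact (same proof as
`Pool.Agent.Helper150.Cb.PartCompactHull.compact_hull` of the shared library). -/
theorem compact_hull {E : Type*} [NormedAddCommGroup E] [NormedSpace ℝ E]
    [FiniteDimensional ℝ E] {s : Set E} (hs : IsCompact s) : IsCompact (convexHull ℝ s) := by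
  classical
  rcases s.eq_empty_or_nonempty with rfl | ⟨x0, hx0⟩
  · rw [convexHull_empty]
    exact isCompact_empty
  obtain ⟨n, hn⟩ : ∃ n, n = Module.finrank ℝ E + 1 := ⟨_, rfl⟩
  have hK : IsCompact ((stdSimplex ℝ (Fin n)) ×ˢ (Set.pi Set.univ (fun _ : Fin n => s))) :=
    (isCompact_stdSimplex ℝ (Fin n)).prod (isCompact_univ_pi fun _ => hs)
  have hcont : Continuous (fun p : (Fin n → ℝ) × (Fin n → E) => ∑ i, p.1 i • p.2 i) := by
    refine continuous_finsetSum _ fun i _ => ?_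
    exact ((continuous_apply i).comp continuous_fst).smul ((continuous_apply i).comp continuous_snd)
  have heq : convexHull ℝ s = (fun p : (Fin n → ℝ) × (Fin n → E) => ∑ i, p.1 i • p.2 i) ''
      ((stdSimplex ℝ (Fin n)) ×ˢ (Set.pi Set.univ (fun _ : Fin n => s))) := by
    apply Set.Subset.antisymm
    · intro x hx
      obtain ⟨ι, hι, z, w, hz, hai, hw0, hw1, hwz⟩ := eq_pos_convex_span_of_mem_convexHull hx
      have hcard : Fintype.card ι ≤ Fintype.card (Fin n) := by
        have h1 := hai.card_le_finrank_succ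
        have h2 := Submodule.finrank_le (vectorSpan ℝ (Set.range z))
        rw [Fintype.card_fin, hn]
        omega
      obtain ⟨e⟩ := Function.Embedding.nonempty_of_card_le hcard
      refine ⟨(Function.extend e w 0, Function.extend e z (fun _ => x0)), ⟨⟨?_, ?_⟩, ?_⟩, ?_⟩
      · intro j
        show (0 : ℝ) ≤ Function.extend e w 0 j
        by_cases hj : ∃ i, e i = j
        · obtain ⟨i, rfl⟩ := hj
          rw [e.injective.extend_apply]
          exact (hw0 i).le
        · rw [Function.extend_apply' _ _ _ hj]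
          exact le_rfl
      · rw [← hw1]
        symm
        refine Fintype.sum_of_injective e e.injective _ _ ?_ ?_
        · intro j hj
          show Function.extend e w 0 j = 0
          rw [Function.extend_apply' _ _ _ hj]
          rfl
        · intro i
          show w i = Function.extend e w 0 (e i)
          rw [e.injective.extend_apply]
      · intro j _
        by_cases hj : ∃ i, e i = j
        · obtain ⟨i, rfl⟩ := hj
          show Function.extend e z (fun _ => x0) (e i) ∈ s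
          rw [e.injective.extend_apply]
          exact hz ⟨i, rfl⟩
        · show Function.extend e z (fun _ => x0) j ∈ s
          rw [Function.extend_apply' _ _ _ hj]
          exact hx0
      · rw [← hwz]
        symm
        refine Fintype.sum_of_injective e e.injective _ _ ?_ ?_
        · intro j hj
          show Function.extend e w 0 j • Function.extend e z (fun _ => x0) j = 0
          rw [Function.extend_apply' w _ _ hj]
          simp
        · intro i
          show w i • z i = Function.extend e w 0 (e i) • Function.extend e z (fun _ => x0) (e i)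
          rw [e.injective.extend_apply, e.injective.extend_apply]
    · rintro _ ⟨⟨w, z⟩, ⟨⟨hw0, hw1⟩, hz⟩, rfl⟩
      refine (convex_convexHull ℝ s).sum_mem (fun i _ => hw0 i) hw1 (fun i _ => ?_)
      exact subset_convexHull ℝ s (hz i (Set.mem_univ i))
  rw [heq]
  exact hK.image hcont

section uniform

variable {E F : Type*} [NormedAddCommGroup E] [InnerProductSpace ℝ E] [FiniteDimensional ℝ E]
  [NormedAddCommGroup F] [InnerProductSpace ℝ F] [FiniteDimensional ℝ F]

/-- limiting Jacobians -/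
def limJac (f : E → F) (x₀ : E) : Set (E →L[ℝ] F) :=
  {B : E →L[ℝ] F | ∀ ε : ℝ, 0 < ε → ∀ δ : ℝ, 0 < δ →
              ∃ x : E, dist x x₀ < δ ∧ DifferentiableAt ℝ f x ∧ ‖fderiv ℝ f x - B‖ < ε}

theorem limJac_closed (f : E → F) (x₀ : E) : IsClosed (limJac f x₀) := by
  rw [← closure_subset_iff_isClosed]
  intro B hB ε hε δ hδ
  obtain ⟨B', hB', hd⟩ := Metric.mem_closure_iff.1 hB (ε / 2) (by positivity)
  obtain ⟨x, hx, hdx, hn⟩ := hB' (ε / 2) (by positivity) δ hδ
  refine ⟨x, hx, hdx, ?_⟩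
  rw [dist_eq_norm, norm_sub_rev] at hd
  calc ‖fderiv ℝ f x - B‖ ≤ ‖fderiv ℝ f x - B'‖ + ‖B' - B‖ := norm_sub_le_norm_sub_add_norm_sub _ _ _
    _ < ε := by linarith

theorem limJac_compact (f : E → F) (x₀ : E) (K : NNReal) (δ : ℝ) (hδ : 0 < δ)
    (hf : LipschitzOnWith K f (ball x₀ δ)) : IsCompact (limJac f x₀) := by
  have : ProperSpace (E →L[ℝ] F) := FiniteDimensional.proper ℝ _
  apply Metric.isCompact_of_isClosed_isBounded (limJac_closed f x₀)
  apply (isBounded_closedBall (x := (0 : E →L[ℝ] F)) (r := K + 1)).subset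
  intro B hB
  obtain ⟨x, hx, hdx, hn⟩ := hB 1 one_pos δ hδ
  have h1 : ‖fderiv ℝ f x‖ ≤ K :=
    norm_fderiv_le_of_lipschitzOn ℝ (isOpen_ball.mem_nhds (mem_ball.2 hx)) hf
  rw [mem_closedBall, dist_zero_right]
  have h2 : ‖B‖ ≤ ‖fderiv ℝ f x‖ + ‖fderiv ℝ f x - B‖ := by
    have := norm_sub_norm_le B (fderiv ℝ f x)
    rw [norm_sub_rev] at this
    linarith
  linarith

theorem adjoint_ne_zero (A : E →L[ℝ] F) (hA : Function.Surjective A) (u : F) (hu : u ≠ 0) :
    ContinuousLinearMap.adjoint A u ≠ 0 := by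
  intro h
  obtain ⟨x, hx⟩ := hA u
  have h1 : ⟪ContinuousLinearMap.adjoint A u, x⟫ = ⟪u, A x⟫ :=
    ContinuousLinearMap.adjoint_inner_left A x u
  rw [h, inner_zero_left, hx] at h1
  exact hu (inner_self_eq_zero.1 h1.symm)

theorem uniform_lower (C : Set (E →L[ℝ] F)) (hC : IsCompact C)
    (hs : ∀ A ∈ C, Function.Surjective A) :
    ∃ c : ℝ, 0 < c ∧ ∀ A ∈ C, ∀ u : F, ‖u‖ = 1 → c ≤ ‖ContinuousLinearMap.adjoint A u‖ := by
  have hK : IsCompact (C ×ˢ sphere (0 : F) 1) := hC.prod (isCompact_sphere _ _)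
  have hcont : Continuous (fun p : (E →L[ℝ] F) × F => ‖ContinuousLinearMap.adjoint p.1 p.2‖) := by
    have h1 : Continuous (fun p : (E →L[ℝ] F) × F => ContinuousLinearMap.adjoint p.1) :=
      (ContinuousLinearMap.adjoint (𝕜 := ℝ) (E := E) (F := F)).continuous.comp continuous_fst
    exact (h1.clm_apply continuous_snd).norm
  obtain ⟨c, hc, h⟩ := hK.exists_forall_le' hcont.continuousOn (a := 0) (by
    rintro ⟨A, u⟩ ⟨hA, hu⟩
    have hu' : u ≠ 0 := by
      rintro rfl
      simp at hu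
    exact norm_pos_iff.2 (adjoint_ne_zero A (hs A hA) u hu'))
  refine ⟨c, hc, fun A hA u hu => h (A, u) ⟨hA, by simpa using hu⟩⟩

theorem exists_direction (C : Set (E →L[ℝ] F)) (hC : IsCompact C) (hconv : Convex ℝ C)
    (c : ℝ) (hc : 0 < c) (u : F)
    (h : ∀ A ∈ C, c ≤ ‖ContinuousLinearMap.adjoint A u‖) :
    ∃ v : E, ‖v‖ ≤ 1 ∧ ∀ A ∈ C, c ≤ ⟪u, A v⟫ := by
  rcases C.eq_empty_or_nonempty with rfl | hne
  · exact ⟨0, by simp, by simp⟩
  set W : Set E := (fun A : E →L[ℝ] F => ContinuousLinearMap.adjoint A u) '' C with hW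
  have hcont : Continuous (fun A : E →L[ℝ] F => ContinuousLinearMap.adjoint A u) := by
    have h1 : Continuous (fun A : (E →L[ℝ] F) => ContinuousLinearMap.adjoint A) :=
      (ContinuousLinearMap.adjoint (𝕜 := ℝ) (E := E) (F := F)).continuous
    exact h1.clm_apply continuous_const
  have hWc : IsCompact W := hC.image hcont
  have hWconv : Convex ℝ W := by
    apply hconv.is_linear_image
    refine ⟨fun A B => by simp, fun a A => by simp⟩
  have hWne : W.Nonempty := hne.image _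
  obtain ⟨w, hw, hmin⟩ := exists_norm_eq_iInf_of_complete_convex hWne hWc.isComplete hWconv 0
  have hmin' := (norm_eq_iInf_iff_real_inner_le_zero hWconv hw).1 hmin
  have hwn : c ≤ ‖w‖ := by
    obtain ⟨A, hA, rfl⟩ := hw
    exact h A hA
  have hwpos : 0 < ‖w‖ := hc.trans_le hwn
  refine ⟨(‖w‖)⁻¹ • w, ?_, ?_⟩
  · rw [norm_smul, norm_inv, norm_norm, inv_mul_cancel₀ hwpos.ne']
  · intro A hA
    have h1 := hmin' (ContinuousLinearMap.adjoint A u) ⟨A, hA, rfl⟩
    rw [zero_sub, inner_neg_left, inner_sub_right, real_inner_self_eq_norm_sq] at h1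
    have h2 : ⟪u, A ((‖w‖)⁻¹ • w)⟫ = (‖w‖)⁻¹ * ⟪w, ContinuousLinearMap.adjoint A u⟫ := by
      rw [map_smul, inner_smul_right, ← ContinuousLinearMap.adjoint_inner_left A w u,
        real_inner_comm]
    rw [h2]
    calc c ≤ ‖w‖ := hwn
      _ = (‖w‖)⁻¹ * ‖w‖ ^ 2 := by field_simp
      _ ≤ (‖w‖)⁻¹ * ⟪w, ContinuousLinearMap.adjoint A u⟫ := by gcongr; linarith

theorem near_limJac (f : E → F) (x₀ : E) (K : NNReal) (δ : ℝ) (hδ : 0 < δ)
    (hf : LipschitzOnWith K f (ball x₀ δ)) (c : ℝ) (hc : 0 < c) :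
    ∃ r : ℝ, 0 < r ∧ ∀ x ∈ ball x₀ r, DifferentiableAt ℝ f x →
      ∃ B ∈ limJac f x₀, ‖fderiv ℝ f x - B‖ < c := by
  by_contra hcon
  push Not at hcon
  have hr : ∀ k : ℕ, 0 < min δ (1 / ((k : ℝ) + 1)) := fun k => by positivity
  choose x hx hdx hfar using fun k : ℕ => hcon _ (hr k)
  have : ProperSpace (E →L[ℝ] F) := FiniteDimensional.proper ℝ _
  have hb : ∀ k, fderiv ℝ f (x k) ∈ closedBall (0 : E →L[ℝ] F) K := by
    intro k
    rw [mem_closedBall, dist_zero_right]
    apply norm_fderiv_le_of_lipschitzOn ℝ _ hf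
    apply isOpen_ball.mem_nhds
    have := hx k
    rw [mem_ball] at this ⊢
    exact this.trans_le (min_le_left _ _)
  obtain ⟨B, -, φ, hφ, hlim⟩ := (isCompact_closedBall (0 : E →L[ℝ] F) (K : ℝ)).tendsto_subseq hb
  have hBmem : B ∈ limJac f x₀ := by
    intro ε hε δ' hδ'
    have h1 : ∀ᶠ k in atTop, ‖fderiv ℝ f (x (φ k)) - B‖ < ε := by
      have := Metric.tendsto_nhds.1 hlim ε hε
      simpa [dist_eq_norm] using this
    have h2 : ∀ᶠ k in atTop, 1 / ((φ k : ℝ) + 1) < δ' := by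
      have := tendsto_one_div_add_atTop_nhds_zero_nat (𝕜 := ℝ)
      exact (this.comp hφ.tendsto_atTop).eventually (gt_mem_nhds hδ')
    obtain ⟨k, hk1, hk2⟩ := (h1.and h2).exists
    refine ⟨x (φ k), ?_, hdx _, hk1⟩
    have := hx (φ k)
    rw [mem_ball] at this
    exact this.trans_le ((min_le_right _ _).trans hk2.le)
  have h1 : ∀ᶠ k in atTop, ‖fderiv ℝ f (x (φ k)) - B‖ < c := by
    have := Metric.tendsto_nhds.1 hlim c hc
    simpa [dist_eq_norm] using this
  obtain ⟨k, hk⟩ := h1.exists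
  exact absurd hk (not_lt.2 (hfar (φ k) B hBmem))

/-- Uniform descent directions for the derivatives near `x₀`. -/
theorem uniform_direction (f : E → F) (x₀ : E) (K : NNReal) (δ : ℝ) (hδ : 0 < δ)
    (hf : LipschitzOnWith K f (ball x₀ δ))
    (hs : ∀ A ∈ convexHull ℝ (limJac f x₀), Function.Surjective A) :
    ∃ c : ℝ, 0 < c ∧ ∃ r : ℝ, 0 < r ∧ ∀ u : F, ‖u‖ = 1 → ∃ v : E, ‖v‖ ≤ 1 ∧
      ∀ x ∈ ball x₀ r, DifferentiableAt ℝ f x → c ≤ ⟪u, fderiv ℝ f x v⟫ := by
  have hC : IsCompact (convexHull ℝ (limJac f x₀)) := compact_hull (limJac_compact f x₀ K δ hδ hf)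
  obtain ⟨c, hc, hlow⟩ := uniform_lower _ hC hs
  obtain ⟨r, hr, hnear⟩ := near_limJac f x₀ K δ hδ hf (c / 2) (by positivity)
  refine ⟨c / 2, by positivity, r, hr, ?_⟩
  intro u hu
  obtain ⟨v, hv, hdir⟩ := exists_direction _ hC (convex_convexHull _ _) c hc u
    (fun A hA => hlow A hA u hu)
  refine ⟨v, hv, ?_⟩
  intro x hx hdx
  obtain ⟨B, hB, hBn⟩ := hnear x hx hdx
  have h1 := hdir B (subset_convexHull _ _ hB)
  have h2 : ⟪u, fderiv ℝ f x v⟫ = ⟪u, B v⟫ + ⟪u, (fderiv ℝ f x - B) v⟫ := by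
    rw [← inner_add_right]; simp
  have h3 : |⟪u, (fderiv ℝ f x - B) v⟫| ≤ c / 2 := by
    calc |⟪u, (fderiv ℝ f x - B) v⟫| ≤ ‖u‖ * ‖(fderiv ℝ f x - B) v‖ := abs_real_inner_le_norm _ _
      _ ≤ 1 * (‖fderiv ℝ f x - B‖ * ‖v‖) := by
          rw [hu]; gcongr; exact ContinuousLinearMap.le_opNorm _ _
      _ ≤ 1 * (c / 2 * 1) := by gcongr
      _ = c / 2 := by ring
  have h4 := (abs_le.1 h3).1
  rw [h2]; linarith

end uniform

section integrate

variable {n m : ℕ}

/-- If the derivative in direction `v` of a Lipschitz map satisfies an a.e. lower bound, the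
increments satisfy it too. -/
theorem increment (g : EuclideanSpace ℝ (Fin n) → EuclideanSpace ℝ (Fin m)) (K : NNReal)
    (hg : LipschitzWith K g) (x₀ : EuclideanSpace ℝ (Fin n)) (r c : ℝ)
    (u : EuclideanSpace ℝ (Fin m)) (v : EuclideanSpace ℝ (Fin n)) (hv : ‖v‖ ≤ 1)
    (h : ∀ x ∈ ball x₀ r, DifferentiableAt ℝ g x → c ≤ ⟪u, fderiv ℝ g x v⟫)
    (x : EuclideanSpace ℝ (Fin n)) (hx : x ∈ ball x₀ (r / 2)) (t : ℝ) (ht : 0 ≤ t)
    (ht' : t < r / 2) : c * t ≤ ⟪u, g (x + t • v) - g x⟫ := by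
  by_contra hcon
  push Not at hcon
  set φ : EuclideanSpace ℝ (Fin n) → ℝ := fun z => ⟪u, g z⟫ with hφ
  have hφc : Continuous φ := continuous_const.inner hg.continuous
  set k : EuclideanSpace ℝ (Fin n) → ℝ := fun z => φ (z + t • v) - φ z - c * t with hk
  have hkc : Continuous k := by fun_prop
  have hkx : k x < 0 := by
    simp only [hk, hφ]
    rw [inner_sub_right] at hcon
    linarith
  obtain ⟨ρ₀, hρ₀, hρk⟩ : ∃ ρ > 0, ∀ z ∈ ball x ρ, k z < k x / 2 := by
    have : ∀ᶠ z in 𝓝 x, k z < k x / 2 := hkc.continuousAt.eventually (gt_mem_nhds (by linarith))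
    exact Metric.eventually_nhds_iff_ball.1 this
  rw [mem_ball] at hx
  have hrpos : 0 < r / 2 := lt_of_le_of_lt ht ht'
  set ρ : ℝ := min ρ₀ (r / 2 - dist x x₀) with hρ
  have hρpos : 0 < ρ := lt_min hρ₀ (by linarith)
  have hρle : ρ ≤ r / 2 - dist x x₀ := min_le_right _ _
  set B : Set (EuclideanSpace ℝ (Fin n)) := ball x ρ with hB
  have hin : ∀ z ∈ B, ∀ s : ℝ, 0 ≤ s → s ≤ t → z + s • v ∈ ball x₀ r := by
    intro z hz s hs hst
    rw [hB, mem_ball] at hz
    rw [mem_ball]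
    have h1 : dist (z + s • v) z ≤ s := by
      rw [dist_eq_norm, add_sub_cancel_left, norm_smul, Real.norm_of_nonneg hs]
      nlinarith
    calc dist (z + s • v) x₀ ≤ dist (z + s • v) z + dist z x + dist x x₀ := dist_triangle4 _ _ _ _
      _ < r := by linarith
  set G : ℝ → ℝ := fun s => ∫ z in B, φ (z + s • v) with hG
  have hBfin : volume B < ⊤ := measure_ball_lt_top
  have hBpos : 0 < volume.real B := by
    rw [Measure.real, ENNReal.toReal_pos_iff]
    exact ⟨measure_ball_pos _ _ hρpos, hBfin⟩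
  have hint : ∀ s : ℝ, IntegrableOn (fun z => φ (z + s • v)) B := by
    intro s
    have hc : Continuous (fun z => φ (z + s • v)) := by fun_prop
    exact (hc.continuousOn.integrableOn_compact (isCompact_closedBall x ρ)).mono_set
      ball_subset_closedBall
  have hmeas : Measurable (fun z => fderiv ℝ g z v) := measurable_fderiv_apply_const ℝ g v
  have hder : ∀ s : ℝ, HasDerivAt G (∫ z in B, ⟪u, fderiv ℝ g (z + s • v) v⟫) s ∧
      IntegrableOn (fun z => ⟪u, fderiv ℝ g (z + s • v) v⟫) B := by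
    intro s
    have := hasDerivAt_integral_of_dominated_loc_of_lip (μ := volume.restrict B)
      (F := fun s z => φ (z + s • v)) (F' := fun z => ⟪u, fderiv ℝ g (z + s • v) v⟫)
      (x₀ := s) (s := univ) (bound := fun _ => ‖u‖ * K) univ_mem ?_ (hint s) ?_ ?_ ?_ ?_
    · exact ⟨this.2, this.1⟩
    · apply Eventually.of_forall
      intro s'
      have hc : Continuous (fun z => φ (z + s' • v)) := by fun_prop
      exact hc.aestronglyMeasurable
    · apply Measurable.aestronglyMeasurable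
      apply Measurable.const_inner
      exact hmeas.comp (measurable_id.add_const _)
    · apply Eventually.of_forall
      intro z
      apply LipschitzWith.lipschitzOnWith
      apply LipschitzWith.of_dist_le_mul
      intro s₁ s₂
      have e1 : dist (φ (z + s₁ • v)) (φ (z + s₂ • v)) ≤ ‖u‖ * (K * (dist s₁ s₂ * 1)) := by
        rw [Real.dist_eq]
        simp only [hφ]
        rw [← inner_sub_right]
        refine (abs_real_inner_le_norm _ _).trans ?_
        gcongr
        rw [← dist_eq_norm]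
        refine (hg.dist_le_mul _ _).trans ?_
        gcongr
        rw [dist_eq_norm, add_sub_add_left_eq_sub, ← sub_smul, norm_smul, Real.dist_eq,
          Real.norm_eq_abs]
        gcongr
      have e2 : ((Real.nnabs (‖u‖ * K) : NNReal) : ℝ) = ‖u‖ * K := by
        rw [Real.coe_nnabs, abs_of_nonneg (by positivity)]
      rw [e2]
      linarith
    · exact integrableOn_const hBfin.ne
    · apply ae_restrict_of_ae
      have h1 : ∀ᵐ z ∂(volume : Measure (EuclideanSpace ℝ (Fin n))), DifferentiableAt ℝ g z :=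
        hg.ae_differentiableAt
      have h2 : ∀ᵐ z ∂(volume : Measure (EuclideanSpace ℝ (Fin n))),
          DifferentiableAt ℝ g (z + s • v) :=
        (measurePreserving_add_right volume (s • v)).quasiMeasurePreserving.ae h1
      filter_upwards [h2] with z hz
      have h3 : HasDerivAt (fun s' : ℝ => z + s' • v) v s := by
        have := ((hasDerivAt_id s).smul_const v).const_add z
        simpa using this
      have h4 : HasDerivAt (fun s' : ℝ => g (z + s' • v)) (fderiv ℝ g (z + s • v) v) s :=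
        hz.hasFDerivAt.comp_hasDerivAt s h3
      have h5 := (hasDerivAt_const s u).inner ℝ h4
      simpa [hφ] using h5
  have hlower : ∀ s ∈ Ioo 0 t, c * volume.real B ≤ deriv G s := by
    intro s hs
    rw [(hder s).1.deriv]
    have h1 : (∫ z in B, c) ≤ ∫ z in B, ⟪u, fderiv ℝ g (z + s • v) v⟫ := by
      apply setIntegral_mono_ae_restrict (integrableOn_const hBfin.ne) (hder s).2
      have h1 : ∀ᵐ z ∂(volume : Measure (EuclideanSpace ℝ (Fin n))), DifferentiableAt ℝ g z :=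
        hg.ae_differentiableAt
      have h2 : ∀ᵐ z ∂(volume : Measure (EuclideanSpace ℝ (Fin n))),
          DifferentiableAt ℝ g (z + s • v) :=
        (measurePreserving_add_right volume (s • v)).quasiMeasurePreserving.ae h1
      filter_upwards [ae_restrict_of_ae h2, ae_restrict_mem measurableSet_ball] with z hz hzB
      exact h _ (hin z hzB s hs.1.le hs.2.le) hz
    rw [setIntegral_const, smul_eq_mul, mul_comm] at h1
    exact h1
  have hmono : c * volume.real B * (t - 0) ≤ G t - G 0 := by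
    apply Convex.mul_sub_le_image_sub_of_le_deriv (convex_Icc (0:ℝ) t)
    · exact fun s _ => (hder s).1.continuousAt.continuousWithinAt
    · exact fun s _ => (hder s).1.differentiableAt.differentiableWithinAt
    · intro s hs
      rw [interior_Icc] at hs
      exact hlower s hs
    · exact left_mem_Icc.2 ht
    · exact right_mem_Icc.2 ht
    · exact ht
  have hkint : ∫ z in B, k z = G t - G 0 - c * t * volume.real B := by
    have h0 : G 0 = ∫ z in B, φ z := by simp [hG]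
    simp only [hk]
    rw [integral_sub, integral_sub, h0, setIntegral_const, smul_eq_mul]
    · ring
    · exact hint t
    · have h1 := hint 0
      simp only [zero_smul, add_zero] at h1
      exact h1
    · have h1 := hint 0
      simp only [zero_smul, add_zero] at h1
      exact (hint t).sub h1
    · exact integrableOn_const hBfin.ne
  have hkneg : ∫ z in B, k z ≤ ∫ z in B, k x / 2 := by
    apply setIntegral_mono_on _ (integrableOn_const hBfin.ne) measurableSet_ball
    · intro z hz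
      exact (hρk z (ball_subset_ball (min_le_left _ _) hz)).le
    · exact (hkc.continuousOn.integrableOn_compact (isCompact_closedBall x ρ)).mono_set
        ball_subset_closedBall
  rw [setIntegral_const, smul_eq_mul, hkint] at hkneg
  have : volume.real B * (k x / 2) < 0 := mul_neg_of_pos_of_neg hBpos (by linarith)
  nlinarith

/-- local descent directions -/
theorem descent (g : EuclideanSpace ℝ (Fin n) → EuclideanSpace ℝ (Fin m)) (K : NNReal)
    (hg : LipschitzWith K g) (x₀ : EuclideanSpace ℝ (Fin n)) (r c : ℝ) (hr : 0 < r) (hc : 0 < c)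
    (hdir : ∀ u : EuclideanSpace ℝ (Fin m), ‖u‖ = 1 → ∃ v : EuclideanSpace ℝ (Fin n), ‖v‖ ≤ 1 ∧
      ∀ x ∈ ball x₀ r, DifferentiableAt ℝ g x → c ≤ ⟪u, fderiv ℝ g x v⟫)
    (x : EuclideanSpace ℝ (Fin n)) (hx : x ∈ ball x₀ (r / 4)) (y : EuclideanSpace ℝ (Fin m))
    (hy : g x ≠ y) :
    ∃ v : EuclideanSpace ℝ (Fin n), ‖v‖ ≤ 1 ∧ ∃ ρ : ℝ, 0 < ρ ∧
      ∀ x' y', dist (x', y') (x, y) < ρ → ∀ t : ℝ, 0 ≤ t → t < ρ →
        ‖y' - g (x' + t • v)‖ ≤ ‖y' - g x'‖ - 2 * (c / 4) * t := by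
  set e₀ : EuclideanSpace ℝ (Fin m) := y - g x with he₀
  have he₀ne : e₀ ≠ 0 := by
    intro h0
    exact hy (sub_eq_zero.1 h0).symm
  have hpos : 0 < ‖e₀‖ := norm_pos_iff.2 he₀ne
  set u : EuclideanSpace ℝ (Fin m) := (‖e₀‖)⁻¹ • e₀ with hu
  have hun : ‖u‖ = 1 := by
    rw [hu, norm_smul, norm_inv, norm_norm, inv_mul_cancel₀ hpos.ne']
  obtain ⟨v, hv, hdv⟩ := hdir u hun
  refine ⟨v, hv, ?_⟩
  -- error vector is continuous
  have hKn : (0 : ℝ) ≤ K := K.2
  set M : ℝ := 2 * (1 + K) * K + K ^ 2 + 2 * c * (1 + K) + c with hM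
  have hMpos : 0 < M := by positivity
  set ρ : ℝ := min (r / 4) (c * ‖e₀‖ / M) with hρ
  have hρpos : 0 < ρ := by positivity
  refine ⟨ρ, hρpos, ?_⟩
  intro x' y' hd t ht ht'
  have hρ1 : ρ ≤ r / 4 := min_le_left _ _
  have hρ2 : ρ * M ≤ c * ‖e₀‖ := by
    have : ρ ≤ c * ‖e₀‖ / M := min_le_right _ _
    rwa [le_div_iff₀ hMpos] at this
  rw [Prod.dist_eq, max_lt_iff] at hd
  obtain ⟨hd1, hd2⟩ := hd
  simp only at hd1 hd2
  rw [mem_ball] at hx
  have hx' : x' ∈ ball x₀ (r / 2) := by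
    rw [mem_ball]
    calc dist x' x₀ ≤ dist x' x + dist x x₀ := dist_triangle _ _ _
      _ < r / 2 := by linarith
  have hinc := increment g K hg x₀ r c u v hv hdv x' hx' t ht (by linarith)
  set Δ : EuclideanSpace ℝ (Fin m) := g (x' + t • v) - g x' with hΔ
  have hΔn : ‖Δ‖ ≤ K * t := by
    rw [hΔ, ← dist_eq_norm]
    refine (hg.dist_le_mul _ _).trans ?_
    rw [dist_eq_norm, add_sub_cancel_left, norm_smul, Real.norm_of_nonneg ht]
    have : t * ‖v‖ ≤ t := by nlinarith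
    gcongr
  set e' : EuclideanSpace ℝ (Fin m) := y' - g x' with he'
  have hee : ‖e' - e₀‖ ≤ (1 + K) * ρ := by
    have h1 : e' - e₀ = (y' - y) - (g x' - g x) := by rw [he', he₀]; abel
    have h2 : ‖g x' - g x‖ ≤ K * ρ := by
      rw [← dist_eq_norm]
      exact (hg.dist_le_mul _ _).trans (by gcongr)
    rw [dist_eq_norm] at hd2
    calc ‖e' - e₀‖ = ‖(y' - y) - (g x' - g x)‖ := by rw [h1]
      _ ≤ ‖y' - y‖ + ‖g x' - g x‖ := norm_sub_le _ _
      _ ≤ ρ + K * ρ := by linarith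
      _ = (1 + K) * ρ := by ring
  have hmove : y' - g (x' + t • v) = e' - Δ := by rw [he', hΔ]; abel
  rw [hmove]
  have hin0 : ‖e₀‖ * (c * t) ≤ ⟪e₀, Δ⟫ := by
    have h1 : ⟪e₀, Δ⟫ = ‖e₀‖ * ⟪u, Δ⟫ := by
      rw [hu, real_inner_smul_left, ← mul_assoc, mul_inv_cancel₀ hpos.ne', one_mul]
    rw [h1]
    exact mul_le_mul_of_nonneg_left hinc hpos.le
  have hin1 : |⟪e' - e₀, Δ⟫| ≤ (1 + K) * ρ * (K * t) := by
    refine (abs_real_inner_le_norm _ _).trans ?_
    gcongr
  have hin2 : ‖e₀‖ * (c * t) - (1 + K) * ρ * (K * t) ≤ ⟪e', Δ⟫ := by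
    have h1 : ⟪e', Δ⟫ = ⟪e₀, Δ⟫ + ⟪e' - e₀, Δ⟫ := by rw [← inner_add_left]; simp
    have := (abs_le.1 hin1).1
    rw [h1]; linarith
  have hsq : ‖e' - Δ‖ ^ 2 = ‖e'‖ ^ 2 - 2 * ⟪e', Δ⟫ + ‖Δ‖ ^ 2 := norm_sub_sq_real _ _
  have hen : ‖e'‖ ≤ ‖e₀‖ + (1 + K) * ρ := by
    have : ‖e'‖ ≤ ‖e' - e₀‖ + ‖e₀‖ := by
      have := norm_sub_norm_le e' e₀; linarith
    linarith
  have hen2 : ‖e₀‖ ≤ ‖e'‖ + (1 + K) * ρ := by
    have : ‖e₀‖ ≤ ‖e' - e₀‖ + ‖e'‖ := by
      have h1 := norm_sub_norm_le e₀ e'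
      have h2 : ‖e₀ - e'‖ = ‖e' - e₀‖ := norm_sub_rev _ _
      linarith
    linarith
  have hΔsq : ‖Δ‖ ^ 2 ≤ (K * t) ^ 2 := by
    apply pow_le_pow_left₀ (norm_nonneg _) hΔn
  have htρ : K ^ 2 * t * t ≤ K ^ 2 * ρ * t := by
    have : K ^ 2 * t ≤ K ^ 2 * ρ := by gcongr
    nlinarith
  -- ‖e' - Δ‖² ≤ ‖e'‖² - c t ‖e'‖
  have hmain : ‖e' - Δ‖ ^ 2 ≤ ‖e'‖ ^ 2 - c * t * ‖e'‖ := by
    rw [hsq]
    have h1 : c * t * ‖e'‖ ≤ c * t * (‖e₀‖ + (1 + K) * ρ) := by gcongr
    have h2 : ρ * M * t ≤ c * ‖e₀‖ * t := by gcongr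
    have h3 : ρ * M * t = 2 * ((1 + K) * ρ * (K * t)) + K ^ 2 * ρ * t + 2 * (c * (1 + K) * ρ * t)
        + c * ρ * t := by rw [hM]; ring
    have h4 : 0 ≤ c * (1 + K) * ρ * t := by positivity
    have h5 : 0 ≤ c * ρ * t := by positivity
    have h6 : (K * t) ^ 2 = K ^ 2 * t * t := by ring
    rw [h6] at hΔsq
    have h7 : c * t * (‖e₀‖ + (1 + K) * ρ) = c * ‖e₀‖ * t + c * (1 + K) * ρ * t := by ring
    have h8 : ‖e₀‖ * (c * t) = c * ‖e₀‖ * t := by ring
    rw [h8] at hin2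
    rw [h7] at h1
    linarith
  have hge : c / 2 * t ≤ ‖e'‖ := by
    have h1 : c * t ≤ c * ρ := by gcongr
    have h2 : ρ * M = ρ * (2 * (1 + K) * K) + ρ * K ^ 2 + 2 * c * ((1 + K) * ρ) + c * ρ := by
      rw [hM]; ring
    have h3 : 0 ≤ ρ * (2 * (1 + K) * K) := by positivity
    have h4 : 0 ≤ ρ * K ^ 2 := by positivity
    have h5 : 2 * c * ((1 + K) * ρ) + c * ρ ≤ c * ‖e₀‖ := by linarith
    have h6 : 2 * ((1 + K) * ρ) + ρ ≤ ‖e₀‖ := by
      have : c * (2 * ((1 + K) * ρ) + ρ) ≤ c * ‖e₀‖ := by linarith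
      exact le_of_mul_le_mul_left this hc
    -- c ρ /2 ≤ ‖e'‖ : need c ≤ K-type bound
    have h7 : c * t ≤ K * t := by
      have h8 : c * t ≤ ‖u‖ * ‖Δ‖ := hinc.trans ((le_abs_self _).trans (abs_real_inner_le_norm _ _))
      rw [hun, one_mul] at h8
      exact h8.trans hΔn
    have h9 : K * t ≤ K * ρ := by gcongr
    have h10 : 0 ≤ K * ρ := by positivity
    have h11 : 0 ≤ c * t := by positivity
    have h12 : (1 + K) * ρ = ρ + K * ρ := by ring
    rw [h12] at h6 hen2
    linarith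
  have hfin : ‖e' - Δ‖ ^ 2 ≤ (‖e'‖ - c / 2 * t) ^ 2 := by
    have h1 : (‖e'‖ - c / 2 * t) ^ 2 = ‖e'‖ ^ 2 - c * t * ‖e'‖ + (c / 2 * t) ^ 2 := by ring
    have h2 := sq_nonneg (c / 2 * t)
    rw [h1]; linarith
  have := abs_le_of_sq_le_sq' hfin (by linarith)
  have h2 : 2 * (c / 4) * t = c / 2 * t := by ring
  rw [h2]
  exact this.2

end integrate

/-- Main theorem: continuous calm local selections under surjective Clarke Jacobians. -/
theorem main (n m : ℕ) (f : EuclideanSpace ℝ (Fin n) → EuclideanSpace ℝ (Fin m))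
    (x₀ : EuclideanSpace ℝ (Fin n)) (hLip : ∃ K : NNReal, ∃ U ∈ nhds x₀, LipschitzOnWith K f U)
    (hs : ∀ A ∈ convexHull ℝ (limJac f x₀), Function.Surjective A) :
    ∃ V ∈ nhds (f x₀), ∃ s : EuclideanSpace ℝ (Fin m) → EuclideanSpace ℝ (Fin n),
        ∃ γ : ℝ, 0 < γ ∧ ContinuousOn s V ∧ s (f x₀) = x₀ ∧
          (∀ y ∈ V, f (s y) = y) ∧
          ∀ y ∈ V, ‖s y - x₀‖ ≤ γ * ‖y - f x₀‖ := by
  obtain ⟨K, U, hU, hfU⟩ := hLip
  obtain ⟨δ, hδ, hδU⟩ := Metric.mem_nhds_iff.1 hU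
  have hfδ : LipschitzOnWith K f (ball x₀ δ) := hfU.mono hδU
  obtain ⟨c, hc, r, hr, hdir⟩ := uniform_direction f x₀ K δ hδ hfδ hs
  obtain ⟨g, hg, hfg⟩ := hfδ.extend_finite_dimension
  set K' := lipschitzExtensionConstant (EuclideanSpace ℝ (Fin m)) * K with hK'
  set r' := min r δ with hr'
  have hr'pos : 0 < r' := lt_min hr hδ
  have hdir' : ∀ u : EuclideanSpace ℝ (Fin m), ‖u‖ = 1 → ∃ v : EuclideanSpace ℝ (Fin n),
      ‖v‖ ≤ 1 ∧ ∀ x ∈ ball x₀ r', DifferentiableAt ℝ g x → c ≤ ⟪u, fderiv ℝ g x v⟫ := by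
    intro u hu
    obtain ⟨v, hv, h⟩ := hdir u hu
    refine ⟨v, hv, ?_⟩
    intro x hx hdx
    have hxδ : x ∈ ball x₀ δ := ball_subset_ball (min_le_right _ _) hx
    have hev : f =ᶠ[𝓝 x] g := by
      filter_upwards [isOpen_ball.mem_nhds hxδ] with z hz
      exact hfg hz
    rw [← hev.fderiv_eq]
    exact h x (ball_subset_ball (min_le_left _ _) hx) (hev.differentiableAt_iff.2 hdx)
  have hdesc := descent g K' hg x₀ r' c hr'pos hc hdir'
  obtain ⟨P, hPc, hP1, hP2⟩ := exists_step g K' hg x₀ (r' / 4) (c / 4) (by positivity)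
    (fun x hx y hy => hdesc x hx y hy)
  obtain ⟨s, hs1, hs2, hs3, hs4, hs5⟩ := exists_selection g hg.continuous x₀ (r' / 4) (c / 4)
    (by positivity) (by positivity) P hPc hP1 hP2
  have hgx : g x₀ = f x₀ := (hfg (mem_ball_self hδ)).symm
  rw [hgx] at hs1 hs2 hs3 hs4 hs5
  refine ⟨ball (f x₀) (c / 4 * (r' / 4)), ball_mem_nhds _ (by positivity), s, (c / 4)⁻¹,
    by positivity, hs1, hs2, ?_, hs5⟩
  intro y hy
  have h1 := hs4 y hy
  have h2 : s y ∈ ball x₀ δ := by
    apply ball_subset_ball _ h1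
    have : r' ≤ δ := min_le_right _ _
    linarith
  rw [hfg h2]
  exact hs3 y hy

end Pool.Agent.H369R3.Clarke
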