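import Pool.Agent.H369R3.GeoMean

set_option autoImplicit false

open Complex Metric Set

namespace Pool.Agent.H369R3.Geo

open Pool.Agent.Helper506.Means

theorem classS_one {e : ℝ} (h0 : 0 < e) (h1 : e ≤ 1) : ClassS (Phi e (-c1)) := by
  apply Phi_classS h0 h1 (neg_ne_zero.mpr c1_ne)
  rw [inv_neg, c1_inv]
  simp

theorem classS_two : ClassS (Phi 1 (-c2)) := by
  apply Phi_classS one_pos le_rfl (neg_ne_zero.mpr c2_ne)
  rw [inv_neg, c2_inv]
  simp

theorem X_continuousOn {e : ℝ} (h0 : 0 < e) (h1 : e ≤ 1) :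
    ContinuousOn (X e) (SN (max ((1 - e) / e / (1 / 32)) (10 - Real.log e))) := by
  have h := del_continuousOn (e := e) (S := SN (max ((1 - e) / e / (1 / 32)) (10 - Real.log e)))
    (fun τ hτ => (bounds h0 h1 hτ).1.trans (by norm_num))
  unfold X LU
  exact (continuousOn_const.mul ((continuousOn_const.add continuousOn_id).add h)).cexp

theorem geo_main {α β : ℝ} (hα : 0 < α) (hαβ : α ≤ β) (hsum : α + β = 1) {Lf Lg : ℂ → ℂ}
    (hf : IsLogBranch (Phi ((α / β) ^ 2) (-c1)) Lf) (hg : IsLogBranch (Phi 1 (-c2)) Lg) :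
    ∃ w : ℂ, {z : ℂ | z ∈ ball (0 : ℂ) 1 ∧ z * exp (α * Lf z + β * Lg z) = w}.Infinite := by
  have hβ : 0 < β := lt_of_lt_of_le hα hαβ
  set e : ℝ := (α / β) ^ 2 with he
  have he0 : 0 < e := by positivity
  have he1 : e ≤ 1 := by
    have : α / β ≤ 1 := (div_le_one hβ).mpr hαβ
    have h2 : 0 < α / β := by positivity
    rw [he]; nlinarith
  have hec : (e : ℂ) ≠ 0 := by exact_mod_cast he0.ne'
  set lam : ℝ := Real.log (α / β) with hlam
  have hloge : Real.log e = 2 * lam := by
    rw [he, hlam, Real.log_pow]; norm_num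
  set N : ℝ := max ((1 - e) / e / (1 / 32)) (10 - Real.log e) with hN
  have hNpos : 0 < N := by
    have : Real.log e ≤ 0 := Real.log_nonpos he0.le he1
    exact lt_of_lt_of_le (by linarith) (le_max_right _ _)
  have hbd : ∀ τ ∈ SN N, _ := fun τ hτ => bounds he0 he1 hτ
  -- the branches
  obtain ⟨Cf, hCf⟩ := branch_const hf hNpos (Z := X e) (K := 1 / (4 * c1 * e))
    (X_continuousOn he0 he1) (fun τ hτ => (hbd τ hτ).2.2.1) (fun τ hτ => by
      have h1 := log_U_eq he0 he1 hτ
      have hc1 := c1_ne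
      unfold Phi X
      rw [h1]
      field_simp
      ring)
  obtain ⟨Cg, hCg⟩ := branch_const hg hNpos (Z := Y) (K := 1 / (4 * c2))
    (by unfold Y; fun_prop) (fun τ hτ => (hbd τ hτ).2.2.2) (fun τ hτ => by
      have h1 := log_U_one hτ.2
      have hc2 := c2_ne
      unfold Phi Y
      rw [h1]
      push_cast
      field_simp
      ring)
  refine ⟨exp (α * Cf + β * Cg), ?_⟩
  have hpi := Real.pi_gt_three
  set T : ℕ → ℝ := fun m => 2 * Real.pi * m - Real.pi - lam with hT
  obtain ⟨N0, hN0⟩ : ∃ N0 : ℕ, ∀ m : ℕ, N0 ≤ m → N ≤ T m - 1 := by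
    obtain ⟨M, hM⟩ := exists_nat_ge (N + 1 + Real.pi + lam)
    refine ⟨M, fun m hm => ?_⟩
    have h1 : (M : ℝ) ≤ m := by exact_mod_cast hm
    have h2 : (0 : ℝ) ≤ m := by positivity
    simp only [hT]
    nlinarith
  have hball : ∀ m : ℕ, N0 ≤ m → ∀ τ ∈ closedBall ((T m : ℝ) : ℂ) 1, τ ∈ SN N := by
    intro m hm τ hτ
    have h1 : ‖τ - (T m : ℝ)‖ ≤ 1 := by simpa [dist_eq_norm] using hτ
    have h2 := (abs_re_le_norm (τ - (T m : ℝ))).trans h1
    have h3 := (abs_im_le_norm (τ - (T m : ℝ))).trans h1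
    rw [sub_re, ofReal_re] at h2
    rw [sub_im, ofReal_im, sub_zero] at h3
    refine ⟨?_, h3⟩
    have := hN0 m hm
    linarith [(abs_le.mp h2).1]
  have hsol : ∀ m : ℕ, N0 ≤ m → ∃ τ ∈ closedBall ((T m : ℝ) : ℂ) 1,
      I * (τ - T m) + (c1 * del e τ - Lq (X e τ) + Lq (Y τ)) = 0 := by
    intro m hm
    apply exists_zero_linear (η := fun τ => c1 * del e τ - Lq (X e τ) + Lq (Y τ))
    · have hdel : DifferentiableOn ℂ (del e) (closedBall ((T m : ℝ) : ℂ) 1) :=
        differentiableOn_del (fun τ hτ => ((hbd τ (hball m hm τ hτ)).1).trans (by norm_num))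
      have hX : DifferentiableOn ℂ (X e) (closedBall ((T m : ℝ) : ℂ) 1) := by
        unfold X LU
        exact (((differentiableOn_const _).add differentiableOn_id).add hdel).const_mul _ |>.cexp
      have hLX : DifferentiableOn ℂ (fun τ => Lq (X e τ)) (closedBall ((T m : ℝ) : ℂ) 1) := by
        intro τ hτ
        have h1 := (hbd τ (hball m hm τ hτ)).2.2.1
        exact (differentiableAt_Lq (X_ne e τ) h1).comp_differentiableWithinAt τ (hX τ hτ)
      have hLY : DifferentiableOn ℂ (fun τ => Lq (Y τ)) (closedBall ((T m : ℝ) : ℂ) 1) := by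
        intro τ hτ
        have h1 := (hbd τ (hball m hm τ hτ)).2.2.2
        refine (differentiableAt_Lq (Y_ne τ) h1).comp_differentiableWithinAt τ ?_
        unfold Y
        fun_prop
      exact ((hdel.const_mul c1).sub hLX).add hLY
    · intro τ hτ
      obtain ⟨b1, b2, b3, b4⟩ := hbd τ (hball m hm τ hτ)
      have e1 := Lq_bound (X_ne e τ) b3
      have e2 := Lq_bound (Y_ne τ) b4
      have e3 : ‖c1 * del e τ‖ ≤ 3 / 64 := by
        rw [norm_mul]
        have := norm_c1_le
        nlinarith [norm_nonneg c1, norm_nonneg (del e τ)]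
      have e4 := norm_add_le (c1 * del e τ - Lq (X e τ)) (Lq (Y τ))
      have e5 := norm_sub_le (c1 * del e τ) (Lq (X e τ))
      linarith
  choose! τ hτ1 hτ2 using hsol
  have him : ∀ m, N0 ≤ m → |(τ m).im| ≤ 1 := fun m hm => (hball m hm _ (hτ1 m hm)).2
  have hre : ∀ m, N0 ≤ m → |(τ m).re - T m| ≤ 1 := by
    intro m hm
    have h1 : ‖τ m - (T m : ℝ)‖ ≤ 1 := by simpa [dist_eq_norm] using hτ1 m hm
    have h2 := (abs_re_le_norm (τ m - (T m : ℝ))).trans h1
    simpa using h2
  refine Set.infinite_of_injective_forall_mem (f := fun m : ℕ => zt (τ (m + N0))) ?_ ?_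
  · intro a b hab
    have ha : N0 ≤ a + N0 := by omega
    have hb : N0 ≤ b + N0 := by omega
    have h1 := zt_inj (him _ ha) (him _ hb) hab
    have h2 := abs_le.mp (hre _ ha)
    have h3 := abs_le.mp (hre _ hb)
    simp only [hT] at h2 h3
    push_cast at h2 h3
    by_contra hne
    rcases lt_or_gt_of_ne hne with hlt | hlt
    · have h4 : (a : ℝ) + 1 ≤ b := by exact_mod_cast hlt
      nlinarith
    · have h4 : (b : ℝ) + 1 ≤ a := by exact_mod_cast hlt
      nlinarith
  · intro m
    have hm : N0 ≤ m + N0 := by omega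
    show zt (τ (m + N0)) ∈ _
    obtain ⟨k, hk⟩ : ∃ k, k = m + N0 := ⟨_, rfl⟩
    rw [← hk] at hm ⊢
    refine ⟨zt_mem (him _ hm), ?_⟩
    have hS := hball k hm _ (hτ1 k hm)
    obtain ⟨b1, b2, b3, b4⟩ := hbd _ hS
    have heq := hτ2 k hm
    have hzne : zt (τ k) ≠ 0 := by
      have := zt_re_pos hS.2 (hNpos.trans_le hS.1)
      intro h; rw [h] at this; simp at this
    rw [hCf _ hS, hCg _ hS]
    have hαc : (α : ℂ) ≠ 0 := by exact_mod_cast hα.ne'
    have hβc : (β : ℂ) ≠ 0 := by exact_mod_cast hβ.ne'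
    have hkey : X e (τ k) * exp (Lq (X e (τ k))) * α = -(Y (τ k) * exp (Lq (Y (τ k))) * β) := by
      have h1 : X e (τ k) * exp (Lq (X e (τ k))) =
          Y (τ k) * exp (Lq (Y (τ k))) * (exp (-(lam : ℂ)) * exp (Real.pi * I)) := by
        generalize Lq (X e (τ k)) = lx at heq ⊢
        generalize Lq (Y (τ k)) = ly at heq ⊢
        unfold X Y
        rw [← exp_add, ← exp_add, ← exp_add, ← exp_add, exp_eq_exp_iff_exists_int]
        refine ⟨-(k : ℤ), ?_⟩
        unfold LU
        rw [hloge]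
        have h5 : (c1 - c2) = I := by unfold c1 c2; ring
        have h6 : (2 : ℂ) * c1 = 1 + I := by unfold c1; ring
        simp only [hT] at heq
        push_cast at heq ⊢
        linear_combination -heq - (τ k) * h5 - (lam : ℂ) * h6
      rw [h1, exp_pi_mul_I, ← ofReal_neg, ← ofReal_exp, Real.exp_neg, Real.exp_log (by positivity)]
      push_cast
      field_simp
    have hzero : (α : ℂ) * log (1 - X e (τ k)) + β * log (1 - Y (τ k)) = 0 := by
      rw [Lq_spec (X_ne e _) b3, Lq_spec (Y_ne _) b4]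
      linear_combination -hkey
    have hexp : (α : ℂ) * (Cf - log (zt (τ k)) + log (1 - X e (τ k))) +
        β * (Cg - log (zt (τ k)) + log (1 - Y (τ k))) =
        (α * Cf + β * Cg) - log (zt (τ k)) := by
      have hs : (α : ℂ) + β = 1 := by exact_mod_cast hsum
      linear_combination hzero - log (zt (τ k)) * hs
    rw [hexp, exp_sub, exp_log hzne]
    field_simp

end Pool.Agent.H369R3.Geo
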