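import Pool.Agent.Helper506.MeansOfUnivalent

set_option autoImplicit false

open Complex Metric Set

namespace Pool.Agent.H369R3.Geo

open Pool.Agent.Helper506.Means

/-- Every function of the class `S` has an analytic branch of `log (f z / z)`. -/
theorem exists_logBranch {f : ℂ → ℂ} (hf : ClassS f) : ∃ L : ℂ → ℂ, IsLogBranch f L := by
  obtain ⟨hd, hinj, h0, h1⟩ := hf
  have h0b : (0 : ℂ) ∈ ball (0 : ℂ) 1 := mem_ball_self one_pos
  set q : ℂ → ℂ := dslope f 0 with hq
  have hqd : DifferentiableOn ℂ q (ball 0 1) :=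
    (differentiableOn_dslope (isOpen_ball.mem_nhds h0b)).mpr hd
  have hfq : ∀ z, f z = z * q z := by
    intro z
    have := sub_smul_dslope f 0 z
    rw [h0, sub_zero, sub_zero, smul_eq_mul] at this
    exact this.symm
  have hq0 : q 0 = 1 := by rw [hq, dslope_same, h1]
  have hqne : ∀ z ∈ ball (0 : ℂ) 1, q z ≠ 0 := by
    intro z hz h
    by_cases hz0 : z = 0
    · rw [hz0, hq0] at h
      exact one_ne_zero h
    · apply hz0
      apply hinj hz h0b
      rw [hfq z, h, mul_zero, h0]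
  have hψ : DifferentiableOn ℂ (fun z => deriv q z / q z) (ball 0 1) :=
    (hqd.deriv isOpen_ball).div hqd hqne
  obtain ⟨L, hL0, hL⟩ := (hψ.isExactOn_ball).with_val_at 0 0
  refine ⟨L, fun z hz => (hL z hz).differentiableAt.differentiableWithinAt, hL0, ?_⟩
  have hder : ∀ z ∈ ball (0 : ℂ) 1, HasDerivAt (fun z => q z * exp (-L z)) 0 z := by
    intro z hz
    have hqz : HasDerivAt q (deriv q z) z :=
      (hqd.differentiableAt (isOpen_ball.mem_nhds hz)).hasDerivAt
    have := hqz.mul ((hL z hz).neg.cexp)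
    refine this.congr_deriv ?_
    have := hqne z hz
    field_simp
    ring
  have hconst : ∀ z ∈ ball (0 : ℂ) 1, q z * exp (-L z) = 1 := by
    intro z hz
    have h := (convex_ball (0 : ℂ) 1).is_const_of_fderivWithin_eq_zero (𝕜 := ℂ)
      (f := fun z => q z * exp (-L z))
      (fun w hw => (hder w hw).differentiableAt.differentiableWithinAt)
      (fun w hw => by
        rw [fderivWithin_of_isOpen isOpen_ball hw]
        ext
        simp [(hder w hw).deriv])
      hz h0b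
    rw [h, hq0, hL0]
    simp
  intro z hz
  rw [hfq z]
  congr 1
  have := hconst z hz
  rw [exp_neg] at this
  field_simp at this
  exact this

/-- A continuous logarithm of a constant on a preconnected set is constant. -/
theorem const_branch {S : Set ℂ} (hS : IsPreconnected S) {Ψ : ℂ → ℂ} (hc : ContinuousOn Ψ S)
    {K : ℂ} (hK : ∀ τ ∈ S, exp (Ψ τ) = K) {a b : ℂ} (ha : a ∈ S) (hb : b ∈ S) : Ψ a = Ψ b := by
  have hint : ∀ x ∈ S, ∃ n : ℤ, Ψ x = Ψ a + n * (2 * Real.pi * I) := by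
    intro x hx
    exact exp_eq_exp_iff_exists_int.mp ((hK x hx).trans (hK a ha).symm)
  set F : ℂ → ℝ := fun x => (Ψ x).im / (2 * Real.pi) with hF
  have hpi := Real.pi_pos
  have hFc : ContinuousOn F S := (continuous_im.comp_continuousOn hc).div_const _
  have hFn : ∀ x ∈ S, ∃ n : ℤ, F x = F a + n ∧ Ψ x = Ψ a + n * (2 * Real.pi * I) := by
    intro x hx
    obtain ⟨n, hn⟩ := hint x hx
    refine ⟨n, ?_, hn⟩
    have : (Ψ x).im = (Ψ a).im + n * (2 * Real.pi) := by
      rw [hn]; simp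
    simp only [hF, this]
    field_simp
  obtain ⟨n, hn1, hn2⟩ := hFn b hb
  have hn0 : n = 0 := by
    by_contra hne
    have key : ∀ x y : ℂ, x ∈ S → y ∈ S → F x < F y → False := by
      intro x y hx hy hxy
      obtain ⟨i, hi, _⟩ := hFn x hx
      obtain ⟨j, hj, _⟩ := hFn y hy
      have hij : i + 1 ≤ j := by
        rw [hi, hj] at hxy
        have : (i : ℝ) < j := by linarith
        exact_mod_cast this
      have hij' : (i : ℝ) + 1 ≤ j := by exact_mod_cast hij
      have hmem : F a + i + 1 / 2 ∈ Icc (F x) (F y) := by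
        rw [hi, hj]
        constructor <;> linarith
      obtain ⟨t, ht, hFt⟩ := hS.intermediate_value hx hy hFc hmem
      obtain ⟨k, hk, _⟩ := hFn t ht
      rw [hk] at hFt
      have h2 : ((2 * k : ℤ) : ℝ) = ((2 * i + 1 : ℤ) : ℝ) := by push_cast; linarith
      have h3 : 2 * k = 2 * i + 1 := by exact_mod_cast h2
      omega
    rcases lt_or_gt_of_ne hne with h | h
    · have : (n : ℝ) < 0 := by exact_mod_cast h
      exact key b a hb ha (by linarith)
    · have : (0 : ℝ) < n := by exact_mod_cast h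
      exact key a b ha hb (by linarith)
  rw [hn2, hn0]
  simp

/-! ### logarithm of `log (1 - x) / (-x)` -/

noncomputable def Lq (x : ℂ) : ℂ := log (1 + (log (1 - x) / (-x) - 1))

theorem quot_bound {x : ℂ} (hx0 : x ≠ 0) (hx : ‖x‖ ≤ 1 / 16) : ‖log (1 - x) / (-x) - 1‖ ≤ ‖x‖ := by
  have hn : 0 < ‖x‖ := norm_pos_iff.mpr hx0
  have h1 : ‖-x‖ < 1 := by rw [norm_neg]; linarith
  have h2 := norm_log_one_add_sub_self_le h1
  rw [norm_neg, ← sub_eq_add_neg] at h2
  have e : log (1 - x) / (-x) - 1 = (log (1 - x) - -x) / (-x) := by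
    rw [sub_div, div_self (neg_ne_zero.mpr hx0)]
  rw [e, norm_div, norm_neg, div_le_iff₀ hn]
  refine h2.trans ?_
  have h3 : (1 - ‖x‖)⁻¹ ≤ 2 := by
    rw [inv_le_comm₀ (by linarith) two_pos]
    linarith
  have h4 : 0 ≤ ‖x‖ ^ 2 := by positivity
  nlinarith

theorem Lq_bound {x : ℂ} (hx0 : x ≠ 0) (hx : ‖x‖ ≤ 1 / 16) : ‖Lq x‖ ≤ 3 / 32 := by
  have h1 := quot_bound hx0 hx
  have h2 := norm_log_one_add_half_le_self (z := log (1 - x) / (-x) - 1) (by linarith)
  unfold Lq
  linarith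

theorem Lq_spec {x : ℂ} (hx0 : x ≠ 0) (hx : ‖x‖ ≤ 1 / 16) : log (1 - x) = -(x * exp (Lq x)) := by
  have h1 := quot_bound hx0 hx
  have h2 : (1 : ℂ) + (log (1 - x) / (-x) - 1) ≠ 0 := by
    intro h
    have h3 : log (1 - x) / (-x) - 1 = -1 := by linear_combination h
    rw [h3, norm_neg, norm_one] at h1
    linarith
  unfold Lq
  rw [exp_log h2]
  field_simp
  ring

theorem differentiableAt_Lq {x : ℂ} (hx0 : x ≠ 0) (hx : ‖x‖ ≤ 1 / 16) : DifferentiableAt ℂ Lq x := by
  have h1 := quot_bound hx0 hx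
  unfold Lq
  have hs : 1 - x ∈ slitPlane := by
    rw [mem_slitPlane_iff]; left
    have := (abs_re_le_norm x).trans hx
    have h2 := (abs_le.mp this).2
    simp; linarith
  have hs2 : 1 + (log (1 - x) / (-x) - 1) ∈ slitPlane := by
    rw [mem_slitPlane_iff]; left
    have := (abs_re_le_norm (log (1 - x) / (-x) - 1)).trans (h1.trans hx)
    have h2 := (abs_le.mp this).1
    rw [add_re, one_re]
    linarith
  have hd : DifferentiableAt ℂ (fun x : ℂ => log (1 - x)) x :=
    DifferentiableAt.clog (by fun_prop) hs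
  exact DifferentiableAt.clog (f := fun x : ℂ => 1 + (log (1 - x) / (-x) - 1))
    (((hd.div (by fun_prop) (neg_ne_zero.mpr hx0)).sub_const 1).const_add 1) hs2

/-! ### the two functions in logarithmic coordinates -/

noncomputable def LU (e : ℝ) (τ : ℂ) : ℂ := Real.log e + τ + del e τ
noncomputable def X (e : ℝ) (τ : ℂ) : ℂ := exp (-c1 * LU e τ)
noncomputable def Y (τ : ℂ) : ℂ := exp (-c2 * τ)

/-- the half-strip `Re τ ≥ N`, `|Im τ| ≤ 1` -/
def SN (N : ℝ) : Set ℂ := {τ | N ≤ τ.re ∧ |τ.im| ≤ 1}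

theorem isPreconnected_SN (N : ℝ) : IsPreconnected (SN N) := by
  apply Convex.isPreconnected
  intro x hx y hy a b ha hb hab
  obtain ⟨h1, h2⟩ := hx
  obtain ⟨h3, h4⟩ := hy
  rw [abs_le] at h2 h4
  refine ⟨?_, abs_le.mpr ⟨?_, ?_⟩⟩
  · simp only [add_re, real_smul, re_ofReal_mul]
    have e1 := mul_le_mul_of_nonneg_left h1 ha
    have e2 := mul_le_mul_of_nonneg_left h3 hb
    have e3 : a * N + b * N = N := by rw [← add_mul, hab, one_mul]
    linarith
  · simp only [add_im, real_smul, im_ofReal_mul]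
    nlinarith
  · simp only [add_im, real_smul, im_ofReal_mul]
    nlinarith

theorem exp_neg_le {x : ℝ} (hx : 4 ≤ x) : Real.exp (-x) ≤ 1 / 16 := by
  have h1 : Real.exp (-x) ≤ Real.exp (-4) := Real.exp_le_exp.mpr (by linarith)
  have h2 : (2 : ℝ) ≤ Real.exp 1 := by
    have := Real.add_one_le_exp (1 : ℝ); linarith
  have h3 : Real.exp 4 = Real.exp 1 ^ 4 := by
    rw [← Real.exp_nat_mul]; norm_num
  have h4 : (16 : ℝ) ≤ Real.exp 4 := by
    rw [h3]
    calc (16 : ℝ) = 2 ^ 4 := by norm_num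
      _ ≤ Real.exp 1 ^ 4 := pow_le_pow_left₀ (by norm_num) h2 4
  rw [Real.exp_neg x, Real.exp_neg 4] at h1
  rw [Real.exp_neg]
  refine h1.trans ?_
  rw [one_div]
  exact inv_anti₀ (by norm_num) h4

theorem bounds {e : ℝ} (h0 : 0 < e) (h1 : e ≤ 1) {τ : ℂ}
    (hτ : τ ∈ SN (max ((1 - e) / e / (1 / 32)) (10 - Real.log e))) :
    ‖(((1 - e) / e : ℝ) : ℂ) * exp (-τ)‖ ≤ 1 / 32 ∧ ‖del e τ‖ ≤ 3 / 64 ∧ ‖X e τ‖ ≤ 1 / 16 ∧
      ‖Y τ‖ ≤ 1 / 16 := by
  obtain ⟨h2, h3⟩ := hτ
  have h4 := (le_max_left _ _).trans h2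
  have h5 := (le_max_right _ _).trans h2
  have hs := small_of_re h0 h1 (by norm_num) h4
  have hd : ‖del e τ‖ ≤ 3 / 64 := by
    have := norm_log_one_add_half_le_self (z := (((1 - e) / e : ℝ) : ℂ) * exp (-τ)) (by linarith)
    unfold del
    linarith
  have him := abs_le.mp h3
  have hdr := abs_le.mp ((abs_re_le_norm (del e τ)).trans hd)
  have hdi := abs_le.mp ((abs_im_le_norm (del e τ)).trans hd)
  refine ⟨hs, hd, ?_, ?_⟩
  · unfold X
    rw [norm_exp]
    have : (-c1 * LU e τ).re = -(((LU e τ).re - (LU e τ).im) / 2) := by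
      unfold c1
      simp only [neg_mul, neg_re, mul_re, div_ofNat_re, div_ofNat_im, add_re, add_im, one_re,
        one_im, I_re, I_im]
      ring
    rw [this]
    apply exp_neg_le
    unfold LU
    simp only [add_re, add_im, ofReal_re, ofReal_im]
    linarith
  · unfold Y
    rw [norm_exp]
    have : (-c2 * τ).re = -((τ.re + τ.im) / 2) := by
      unfold c2
      simp only [neg_mul, neg_re, mul_re, div_ofNat_re, div_ofNat_im, sub_re, sub_im, one_re,
        one_im, I_re, I_im]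
      ring
    rw [this]
    apply exp_neg_le
    have hl : Real.log e ≤ 0 := Real.log_nonpos h0.le h1
    linarith

theorem X_ne (e : ℝ) (τ : ℂ) : X e τ ≠ 0 := exp_ne_zero _
theorem Y_ne (τ : ℂ) : Y τ ≠ 0 := exp_ne_zero _

theorem log_U_eq {e : ℝ} (h0 : 0 < e) (h1 : e ≤ 1) {τ : ℂ}
    (hτ : τ ∈ SN (max ((1 - e) / e / (1 / 32)) (10 - Real.log e))) :
    log (U e (zt τ)) = LU e τ :=
  log_U h0 hτ.2 ((bounds h0 h1 hτ).1.trans (by norm_num))

theorem log_U_one {τ : ℂ} (h : |τ.im| ≤ 1) : log (U 1 (zt τ)) = τ := by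
  have := log_U one_pos h (τ := τ) (by simp)
  simpa [del] using this

theorem zt_re_pos {τ : ℂ} (h : |τ.im| ≤ 1) (hre : 0 < τ.re) : 0 < (zt τ).re := by
  have hp := exp_half_re_pos h
  have hn : 1 < ‖exp (τ / 2)‖ := by
    rw [norm_exp]
    apply Real.one_lt_exp_iff.mpr
    simpa using hre
  set p := exp (τ / 2) with hpdef
  have h1 := add_one_ne hp
  unfold zt
  rw [← hpdef, div_re]
  have h2 : 0 < normSq (p + 1) := normSq_pos.mpr h1
  rw [← add_div]
  apply div_pos _ h2
  have h3 : 1 < normSq p := by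
    rw [normSq_eq_norm_sq]; nlinarith
  rw [normSq_apply] at h3
  simp only [sub_re, one_re, add_re, sub_im, one_im, add_im]
  nlinarith

theorem del_continuousOn {e : ℝ} {S : Set ℂ}
    (hS : ∀ τ ∈ S, ‖(((1 - e) / e : ℝ) : ℂ) * exp (-τ)‖ ≤ 1 / 2) : ContinuousOn (del e) S :=
  (differentiableOn_del hS).continuousOn

theorem zt_continuousOn {N : ℝ} : ContinuousOn zt (SN N) := by
  intro τ hτ
  have h1 := add_one_ne (exp_half_re_pos hτ.2)
  apply ContinuousAt.continuousWithinAt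
  unfold zt
  exact ContinuousAt.div (by fun_prop) (by fun_prop) h1

theorem one_sub_slit {x : ℂ} (hx : ‖x‖ ≤ 1 / 16) : 1 - x ∈ slitPlane := by
  rw [mem_slitPlane_iff]; left
  have := (abs_re_le_norm x).trans hx
  have h2 := (abs_le.mp this).2
  simp; linarith

/-- the branch of the logarithm near the boundary point `1` -/
theorem branch_const {f L : ℂ → ℂ} (hL : IsLogBranch f L) {N : ℝ} (hN : 0 < N) {Z : ℂ → ℂ} {K : ℂ}
    (hZc : ContinuousOn Z (SN N)) (hZ : ∀ τ ∈ SN N, ‖Z τ‖ ≤ 1 / 16)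
    (hf : ∀ τ ∈ SN N, f (zt τ) = K * (1 - Z τ)) :
    ∃ C : ℂ, ∀ τ ∈ SN N, L (zt τ) = C - log (zt τ) + log (1 - Z τ) := by
  have hbase : ((N : ℝ) : ℂ) ∈ SN N := by
    constructor <;> simp
  refine ⟨L (zt N) + log (zt N) - log (1 - Z N), fun τ hτ => ?_⟩
  have hslit : ∀ τ ∈ SN N, zt τ ∈ slitPlane := by
    intro τ hτ
    rw [mem_slitPlane_iff]; left
    exact zt_re_pos hτ.2 (hN.trans_le hτ.1)
  have hmaps : MapsTo zt (SN N) (ball 0 1) := fun τ hτ => zt_mem hτ.2
  have hcont : ContinuousOn (fun τ => L (zt τ) + log (zt τ) - log (1 - Z τ)) (SN N) := by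
    apply ContinuousOn.sub
    · apply ContinuousOn.add
      · exact hL.1.continuousOn.comp zt_continuousOn hmaps
      · exact ContinuousOn.clog zt_continuousOn hslit
    · exact ContinuousOn.clog (continuousOn_const.sub hZc) (fun τ hτ => one_sub_slit (hZ τ hτ))
  have h := const_branch (isPreconnected_SN N) hcont (K := K) (fun τ hτ => by
    have h1 := hL.2.2 (zt τ) (hmaps hτ)
    have h2 : 1 - Z τ ≠ 0 := slitPlane_ne_zero (one_sub_slit (hZ τ hτ))
    have h3 : zt τ ≠ 0 := slitPlane_ne_zero (hslit τ hτ)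
    rw [exp_sub, exp_add, exp_log h2, exp_log h3, mul_comm, ← h1, hf τ hτ]
    field_simp) hτ hbase
  linear_combination h

end Pool.Agent.H369R3.Geo
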