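import Pool.Agent.H369R3.HarmSlit

set_option autoImplicit false

open Complex Set Metric

namespace Pool.Agent.H369R3.HS

noncomputable def cc : ℂ := (3 + 4 * I) / 5
noncomputable def cb : ℂ := (3 - 4 * I) / 5

lemma cc_cb : cc * cb = 1 := by
  unfold cc cb
  linear_combination (-16 / 25 : ℂ) * I_sq

lemma norm_cb : ‖cb‖ = 1 := by
  have h : normSq cb = 1 := by
    unfold cb
    simp [normSq_apply]
    norm_num
  rw [norm_def, h, Real.sqrt_one]

/-- the Cayley map of the disc onto the upper half-plane -/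
noncomputable def M (z : ℂ) : ℂ := I * (1 + z) / (1 - z)

lemma one_sub_ne {z : ℂ} (hz : ‖z‖ < 1) : 1 - z ≠ 0 := by
  intro h
  have : z = 1 := (sub_eq_zero.mp h).symm
  rw [this] at hz
  simp at hz

lemma M_im {z : ℂ} (hz : ‖z‖ < 1) : 0 < (M z).im := by
  have h1 := one_sub_ne hz
  have hn : 0 < normSq (1 - z) := normSq_pos.mpr h1
  have h2 : normSq z < 1 := by
    rw [normSq_eq_norm_sq]
    have := norm_nonneg z
    nlinarith
  unfold M
  rw [div_im]
  simp only [mul_im, mul_re, I_re, I_im, add_re, add_im, one_re, one_im, sub_re, sub_im]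
  rw [← sub_div]
  apply div_pos _ hn
  rw [normSq_apply] at h2
  nlinarith

lemma M_inj {z w : ℂ} (hz : ‖z‖ < 1) (hw : ‖w‖ < 1) (h : M z = M w) : z = w := by
  have h1 := one_sub_ne hz
  have h2 := one_sub_ne hw
  unfold M at h
  rw [div_eq_div_iff h1 h2] at h
  have h3 : (2 * I : ℂ) * (z - w) = 0 := by linear_combination h
  rcases mul_eq_zero.mp h3 with h4 | h4
  · exact absurd h4 (mul_ne_zero two_ne_zero I_ne_zero)
  · exact sub_eq_zero.mp h4

lemma hasDerivAt_M {z : ℂ} (hz : ‖z‖ < 1) : HasDerivAt M (2 * I / (1 - z) ^ 2) z := by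
  have h1 := one_sub_ne hz
  have h2 : HasDerivAt (fun z : ℂ => I * (1 + z)) I z := by
    simpa using ((hasDerivAt_id z).const_add 1).const_mul I
  have h3 : HasDerivAt (fun z : ℂ => 1 - z) (-1) z := by
    simpa using (hasDerivAt_id z).const_sub 1
  have h4 := h2.div h3 h1
  refine h4.congr_deriv ?_
  congr 1
  ring

noncomputable def hp (z : ℂ) : ℂ := (1 + z) * (1 - cc * z) / ((1 - z) ^ 4 * (1 + cb * z ^ 2))
noncomputable def gp (z : ℂ) : ℂ := -(cb ^ 2) * z ^ 2 * hp z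

lemma den2_ne {z : ℂ} (hz : ‖z‖ < 1) : 1 + cb * z ^ 2 ≠ 0 := by
  intro h
  have h1 : cb * z ^ 2 = -1 := by linear_combination h
  have h2 : ‖cb * z ^ 2‖ = 1 := by rw [h1]; simp
  rw [norm_mul, norm_cb, one_mul, norm_pow] at h2
  have := norm_nonneg z
  nlinarith

lemma D_eq {z : ℂ} (hz : ‖z‖ < 1) :
    M z ^ 2 - M z - 1 = -(2 + I) * (1 + cb * z ^ 2) / (1 - z) ^ 2 := by
  have h1 := one_sub_ne hz
  have hI := I_sq
  unfold M cb
  rw [eq_div_iff (pow_ne_zero 2 h1)]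
  field_simp
  ring_nf
  simp only [I_sq]
  ring

lemma two_add_I_ne : (2 + I : ℂ) ≠ 0 := by
  intro h
  have := congrArg im h
  simp at this

lemma comb_h {s : ℂ} (hs : 0 < s.im) :
    cc * A1 s + (-1 + 2 * I) * B1 s = cc * (s * (s - 2) * (s + I) ^ 2) / (s ^ 2 - s - 1) := by
  have hd := den_ne hs
  rw [eq_div_iff hd]
  unfold A1 B1
  rw [add_mul, mul_assoc (-1 + 2 * I) _ (s ^ 2 - s - 1), div_mul_cancel₀ _ hd]
  unfold cc
  linear_combination (s ^ 2 * (s - 2) * (-8 / 5) - s * (s - 2) * (3 + 4 * I) / 5) * I_sq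

lemma comb_g {s : ℂ} (hs : 0 < s.im) :
    -cb * A1 s + (1 + 2 * I) * B1 s = -cb * (s * (s - 2) * (s - I) ^ 2) / (s ^ 2 - s - 1) := by
  have hd := den_ne hs
  rw [eq_div_iff hd]
  unfold A1 B1
  rw [add_mul, mul_assoc (1 + 2 * I) _ (s ^ 2 - s - 1), div_mul_cancel₀ _ hd]
  unfold cb
  linear_combination (s ^ 2 * (s - 2) * (8 / 5) + s * (s - 2) * (3 - 4 * I) / 5) * I_sq

lemma key_h {z : ℂ} (hz : ‖z‖ < 1) :
    (1 / 8 : ℂ) * (cc * A1 (M z) + (-1 + 2 * I) * B1 (M z)) * (2 * I / (1 - z) ^ 2) = hp z := by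
  have hd := one_sub_ne hz
  have hq := den2_ne hz
  have h2 := two_add_I_ne
  rw [comb_h (M_im hz), D_eq hz]
  have e1 : M z = I * (1 + z) / (1 - z) := rfl
  have e2 : M z - 2 = (I * (1 + z) - 2 * (1 - z)) / (1 - z) := by
    rw [e1]; field_simp
  have e3 : M z + I = 2 * I / (1 - z) := by
    rw [e1]; field_simp; ring
  rw [e2, e3, e1]
  unfold hp
  set q := 1 + cb * z ^ 2
  have e4 : cc * (2 - I) = 2 + I := by
    unfold cc; linear_combination (-4 / 5 : ℂ) * I_sq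
  have e5 : -cc * (I * (1 + z) - 2 * (1 - z)) = (2 + I) * (1 - cc * z) := by
    linear_combination e4
  have e6 : (1 / 8 : ℂ) * (cc * (I * (1 + z) / (1 - z) * ((I * (1 + z) - 2 * (1 - z)) / (1 - z)) *
      (2 * I / (1 - z)) ^ 2) / (-(2 + I) * q / (1 - z) ^ 2)) * (2 * I / (1 - z) ^ 2) =
      (I ^ 2) ^ 2 * (1 + z) * (-cc * (I * (1 + z) - 2 * (1 - z))) / ((2 + I) * ((1 - z) ^ 4 * q)) := by
    field_simp
    ring
  rw [e6, e5, I_sq]
  field_simp

lemma key_g {z : ℂ} (hz : ‖z‖ < 1) :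
    (1 / 8 : ℂ) * (-cb * A1 (M z) + (1 + 2 * I) * B1 (M z)) * (2 * I / (1 - z) ^ 2) = gp z := by
  have hd := one_sub_ne hz
  have hq := den2_ne hz
  have hD := den_ne (M_im hz)
  unfold gp
  rw [← key_h hz, comb_g (M_im hz), comb_h (M_im hz)]
  have e1 : M z = I * (1 + z) / (1 - z) := rfl
  have e2 : M z - I = 2 * I * z / (1 - z) := by
    rw [e1]; field_simp; ring
  have e3 : M z + I = 2 * I / (1 - z) := by
    rw [e1]; field_simp; ring
  rw [e2, e3]
  have h := cc_cb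
  have e4 : cb ^ 2 * cc = cb := by linear_combination cb * h
  generalize M z ^ 2 - M z - 1 = D at hD
  generalize hS : M z * (M z - 2) = S
  have e5 : (1 / 8 : ℂ) * (-cb * (S * (2 * I * z / (1 - z)) ^ 2) / D) * (2 * I / (1 - z) ^ 2) =
      (-(cb : ℂ)) * (z ^ 2 * S * I ^ 3 / (D * (1 - z) ^ 4)) := by
    field_simp
    ring
  have e6 : -cb ^ 2 * z ^ 2 * (1 / 8 * (cc * (S * (2 * I / (1 - z)) ^ 2) / D) *
      (2 * I / (1 - z) ^ 2)) = (-(cb ^ 2 * cc)) * (z ^ 2 * S * I ^ 3 / (D * (1 - z) ^ 4)) := by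
    field_simp
    ring
  rw [e5, e6, e4]

end Pool.Agent.H369R3.HS
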