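import Pool.Agent.H369R3.HarmDisc

set_option autoImplicit false

open Complex Set Metric

namespace Pool.Agent.H369R3.HS

/-- the dilation factor -/
noncomputable def rr : ℝ := 9 / 10

noncomputable def H (z : ℂ) : ℂ :=
  (1 / (8 * (rr : ℂ))) * (cc * (A (M (rr * z)) - A (M 0)) + (-1 + 2 * I) * (B (M (rr * z)) - B (M 0)))
noncomputable def G (z : ℂ) : ℂ :=
  (1 / (8 * (rr : ℂ))) * (-cb * (A (M (rr * z)) - A (M 0)) + (1 + 2 * I) * (B (M (rr * z)) - B (M 0)))

lemma rr_ne : (rr : ℂ) ≠ 0 := by unfold rr; push_cast; norm_num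

lemma norm_rr {z : ℂ} (hz : ‖z‖ < 1) : ‖(rr : ℂ) * z‖ < 1 := by
  rw [norm_mul, norm_real]
  have : ‖rr‖ = 9 / 10 := by unfold rr; norm_num
  rw [this]
  have := norm_nonneg z
  linarith

lemma hasDerivAt_comp {Φ Φ1 : ℂ → ℂ} (hΦ : ∀ s : ℂ, 0 < s.im → HasDerivAt Φ (Φ1 s) s) {z : ℂ}
    (hz : ‖z‖ < 1) :
    HasDerivAt (fun z => Φ (M (rr * z))) (Φ1 (M (rr * z)) * (2 * I / (1 - rr * z) ^ 2 * rr)) z := by
  have h1 := norm_rr hz
  have h2 : HasDerivAt (fun z : ℂ => (rr : ℂ) * z) rr z := by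
    simpa using (hasDerivAt_id z).const_mul (rr : ℂ)
  have h3 := (hasDerivAt_M h1).comp z h2
  exact (hΦ _ (M_im h1)).comp z h3

lemma hasDerivAt_H {z : ℂ} (hz : ‖z‖ < 1) : HasDerivAt H (hp (rr * z)) z := by
  have hA := hasDerivAt_comp (fun s _ => hasDerivAt_A s) hz
  have hB := hasDerivAt_comp (fun s hs => hasDerivAt_B hs) hz
  have h1 := (((hA.sub_const (A (M 0))).const_mul cc).add
    ((hB.sub_const (B (M 0))).const_mul (-1 + 2 * I))).const_mul (1 / (8 * (rr : ℂ)))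
  refine h1.congr_deriv ?_
  rw [← key_h (norm_rr hz)]
  have := rr_ne
  field_simp

lemma hasDerivAt_G {z : ℂ} (hz : ‖z‖ < 1) : HasDerivAt G (gp (rr * z)) z := by
  have hA := hasDerivAt_comp (fun s _ => hasDerivAt_A s) hz
  have hB := hasDerivAt_comp (fun s hs => hasDerivAt_B hs) hz
  have h1 := (((hA.sub_const (A (M 0))).const_mul (-cb)).add
    ((hB.sub_const (B (M 0))).const_mul (1 + 2 * I))).const_mul (1 / (8 * (rr : ℂ)))
  refine h1.congr_deriv ?_
  rw [← key_g (norm_rr hz)]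
  have := rr_ne
  field_simp

lemma sum_eq (z : ℂ) : H z + (starRingEnd ℂ) (G z) = (2 * I / (8 * (rr : ℂ))) *
    (cc * (((A (M (rr * z))).im - (A (M 0)).im : ℝ) : ℂ) +
      (-1 + 2 * I) * (((B (M (rr * z))).im - (B (M 0)).im : ℝ) : ℂ)) := by
  have hcb : (starRingEnd ℂ) cb = cc := by
    unfold cb cc
    simp [map_ofNat]
  have him : ∀ w : ℂ, w - (starRingEnd ℂ) w = 2 * I * (w.im : ℂ) := by
    intro w
    rw [Complex.sub_conj]
    push_cast
    ring
  have hA := him (A (M (rr * z)) - A (M 0))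
  have hB := him (B (M (rr * z)) - B (M 0))
  unfold H G
  simp only [map_mul, map_add, map_neg, map_one, map_div₀, conj_ofReal, hcb, conj_I, map_ofNat]
  rw [sub_im] at hA hB
  generalize (A (M (rr * z)) - A (M 0)) = a at *
  generalize (B (M (rr * z)) - B (M 0)) = b at *
  have := rr_ne
  linear_combination (1 / (8 * (rr : ℂ))) * (cc * hA + (-1 + 2 * I) * hB)

lemma inj_HG : InjOn (fun z => H z + (starRingEnd ℂ) (G z)) (ball (0 : ℂ) 1) := by
  intro z hz w hw h
  have hz' : ‖z‖ < 1 := by simpa using hz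
  have hw' : ‖w‖ < 1 := by simpa using hw
  simp only [sum_eq] at h
  have hne : (2 * I / (8 * (rr : ℂ))) ≠ 0 := by
    apply div_ne_zero (mul_ne_zero two_ne_zero I_ne_zero)
    exact mul_ne_zero (by norm_num) rr_ne
  have h1 := mul_left_cancel₀ hne h
  have h2 := congrArg re h1
  have h3 := congrArg im h1
  simp only [cc, add_re, add_im, mul_re, mul_im, ofReal_re, ofReal_im, neg_re, neg_im, one_re,
    one_im, I_re, I_im, div_ofNat_re, div_ofNat_im, re_ofNat, im_ofNat] at h2 h3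
  have hA : (A (M (rr * z))).im = (A (M (rr * w))).im := by linarith
  have hB : (B (M (rr * z))).im = (B (M (rr * w))).im := by linarith
  have h4 := inj (M_im (norm_rr hz')) (M_im (norm_rr hw')) hA hB
  have h5 := M_inj (norm_rr hz') (norm_rr hw') h4
  exact mul_left_cancel₀ rr_ne h5

lemma norm_gp {z : ℂ} (hz : ‖z‖ < 1) : ‖gp (rr * z)‖ ≤ 81 / 100 * ‖hp (rr * z)‖ := by
  unfold gp
  rw [norm_mul, norm_mul, norm_neg, norm_pow, norm_cb, one_pow, one_mul, norm_pow, norm_mul,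
    norm_real]
  have : ‖rr‖ = 9 / 10 := by unfold rr; norm_num
  rw [this]
  apply mul_le_mul_of_nonneg_right _ (norm_nonneg _)
  have := norm_nonneg z
  nlinarith

lemma hasDerivAt_hp : HasDerivAt hp (5 - cc) 0 := by
  have h1 : HasDerivAt (fun z : ℂ => 1 + z) 1 0 := by
    simpa using (hasDerivAt_id (0 : ℂ)).const_add 1
  have h2 : HasDerivAt (fun z : ℂ => 1 - cc * z) (-cc) 0 := by
    simpa using ((hasDerivAt_id (0 : ℂ)).const_mul cc).const_sub 1
  have h3 : HasDerivAt (fun z : ℂ => 1 - z) (-1) 0 := by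
    simpa using (hasDerivAt_id (0 : ℂ)).const_sub 1
  have h4 : HasDerivAt (fun z : ℂ => 1 + cb * z ^ 2) 0 0 := by
    have := (((hasDerivAt_id (0 : ℂ)).pow 2).const_mul cb).const_add 1
    simpa using this
  have h5 := (h1.mul h2).div ((h3.pow 4).mul h4) (by simp)
  refine h5.congr_deriv ?_
  simp
  ring

lemma hasDerivAt_hpr : HasDerivAt (fun z => hp (rr * z)) (rr * (5 - cc)) 0 := by
  have h2 : HasDerivAt (fun z : ℂ => (rr : ℂ) * z) rr 0 := by
    simpa using (hasDerivAt_id (0 : ℂ)).const_mul (rr : ℂ)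
  have h3 := (hasDerivAt_hp).comp_of_eq (0 : ℂ) h2 (by simp)
  refine h3.congr_deriv ?_
  ring

lemma hasDerivAt_gpr : HasDerivAt (fun z => gp (rr * z)) 0 0 := by
  have h2 : HasDerivAt (fun z : ℂ => (rr : ℂ) * z) rr 0 := by
    simpa using (hasDerivAt_id (0 : ℂ)).const_mul (rr : ℂ)
  have h3 := ((h2.pow 2).const_mul (-(cb ^ 2))).mul hasDerivAt_hpr
  refine h3.congr_deriv ?_
  simp

lemma hp_zero : hp 0 = 1 := by simp [hp]
lemma gp_zero : gp 0 = 0 := by simp [gp]

lemma ball_nhds : ball (0 : ℂ) 1 ∈ nhds (0 : ℂ) := ball_mem_nhds _ one_pos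

lemma iter_H : iteratedDeriv 2 H 0 = rr * (5 - cc) := by
  rw [iteratedDeriv_succ, iteratedDeriv_one]
  have : deriv H =ᶠ[nhds 0] fun z => hp (rr * z) := by
    filter_upwards [ball_nhds] with z hz
    exact (hasDerivAt_H (by simpa using hz)).deriv
  rw [this.deriv_eq]
  exact hasDerivAt_hpr.deriv

lemma iter_G : iteratedDeriv 2 G 0 = 0 := by
  rw [iteratedDeriv_succ, iteratedDeriv_one]
  have : deriv G =ᶠ[nhds 0] fun z => gp (rr * z) := by
    filter_upwards [ball_nhds] with z hz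
    exact (hasDerivAt_G (by simpa using hz)).deriv
  rw [this.deriv_eq]
  exact hasDerivAt_gpr.deriv

lemma norm_a2 : 2 < ‖(rr : ℂ) * (5 - cc) / 2‖ := by
  have h : normSq ((rr : ℂ) * (5 - cc) / 2) = 4.05 := by
    unfold rr cc
    simp [normSq_apply]
    norm_num
  rw [norm_def, h]
  apply Real.lt_sqrt_of_sq_lt
  norm_num

end Pool.Agent.H369R3.HS
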