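import Mathlib

set_option autoImplicit false

open Complex Set

namespace Pool.Agent.H369R3.HS

noncomputable def pp : ℝ := (1 + Real.sqrt 5) / 2
noncomputable def pm : ℝ := (1 - Real.sqrt 5) / 2

noncomputable def A (s : ℂ) : ℂ := s ^ 3 / 3 - s ^ 2
noncomputable def B (s : ℂ) : ℂ :=
  s ^ 2 / 2 - s - ((1 / Real.sqrt 5 : ℝ) : ℂ) * (log (s - pp) - log (s - pm))

noncomputable def A1 (s : ℂ) : ℂ := s ^ 2 - 2 * s
noncomputable def B1 (s : ℂ) : ℂ := s ^ 2 * (s - 2) / (s ^ 2 - s - 1)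

lemma sqrt5_pos : 0 < Real.sqrt 5 := Real.sqrt_pos.mpr (by norm_num)
lemma sqrt5_sq : Real.sqrt 5 ^ 2 = 5 := Real.sq_sqrt (by norm_num)
lemma sqrt5_lt : Real.sqrt 5 < 2.25 := by
  rw [Real.sqrt_lt' (by norm_num)]; norm_num
lemma sqrt5_gt : 2.23 < Real.sqrt 5 := by
  apply Real.lt_sqrt_of_sq_lt; norm_num

lemma factor (s : ℂ) : s ^ 2 - s - 1 = (s - pp) * (s - pm) := by
  have h : ((Real.sqrt 5 : ℝ) : ℂ) ^ 2 = 5 := by
    rw [← ofReal_pow, sqrt5_sq]; norm_num
  unfold pp pm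
  push_cast
  linear_combination (1 / 4 : ℂ) * h

lemma sub_ne {s : ℂ} (hs : 0 < s.im) (r : ℝ) : s - r ≠ 0 := by
  intro h
  have := congrArg im h
  simp at this
  linarith

lemma mem_slit {s : ℂ} (hs : 0 < s.im) (r : ℝ) : s - r ∈ slitPlane := by
  rw [mem_slitPlane_iff]
  right
  simp
  exact hs.ne'

lemma den_ne {s : ℂ} (hs : 0 < s.im) : s ^ 2 - s - 1 ≠ 0 := by
  rw [factor]
  exact mul_ne_zero (sub_ne hs _) (sub_ne hs _)

lemma s_ne {s : ℂ} (hs : 0 < s.im) : s ≠ 0 := by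
  intro h; rw [h] at hs; simp at hs

lemma hasDerivAt_A (s : ℂ) : HasDerivAt A (A1 s) s := by
  unfold A A1
  have h1 := ((hasDerivAt_id s).pow 3).div_const 3
  have h2 := (hasDerivAt_id s).pow 2
  have h3 := h1.sub h2
  refine h3.congr_deriv ?_
  simp

lemma hasDerivAt_B {s : ℂ} (hs : 0 < s.im) : HasDerivAt B (B1 s) s := by
  have h1 := ((hasDerivAt_id s).pow 2).div_const 2
  have h2 := h1.sub (hasDerivAt_id s)
  have h3 := ((hasDerivAt_id s).sub_const (pp : ℂ)).clog (mem_slit hs pp)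
  have h4 := ((hasDerivAt_id s).sub_const (pm : ℂ)).clog (mem_slit hs pm)
  have h5 := (h3.sub h4).const_mul ((1 / Real.sqrt 5 : ℝ) : ℂ)
  have h6 := h2.sub h5
  refine h6.congr_deriv ?_
  have e1 := sub_ne hs pp
  have e2 := sub_ne hs pm
  have h5' : ((Real.sqrt 5 : ℝ) : ℂ) ≠ 0 := by exact_mod_cast sqrt5_pos.ne'
  have hd : ((pp : ℝ) : ℂ) - pm = Real.sqrt 5 := by
    unfold pp pm; push_cast; ring
  have e3 : (1 / (s - pp) - 1 / (s - pm) : ℂ) = Real.sqrt 5 / (s ^ 2 - s - 1) := by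
    rw [factor, ← hd]
    field_simp
    ring
  unfold B1
  simp only [id]
  rw [e3]
  have e4 := den_ne hs
  have e5 : ((1 / Real.sqrt 5 : ℝ) : ℂ) * (Real.sqrt 5 / (s ^ 2 - s - 1)) = 1 / (s ^ 2 - s - 1) := by
    push_cast
    field_simp
  rw [e5, eq_div_iff e4, sub_mul, div_mul_cancel₀ _ e4]
  push_cast
  ring

lemma J_pos {s : ℂ} (hs : 0 < s.im) : 0 < (A1 s * (starRingEnd ℂ) (B1 s)).im := by
  have h0 := s_ne hs
  have hd := den_ne hs
  have h2 : s - 2 ≠ 0 := by
    have := sub_ne hs 2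
    simpa using this
  have hB : B1 s ≠ 0 := by
    unfold B1
    exact div_ne_zero (mul_ne_zero (pow_ne_zero 2 h0) h2) hd
  have hA : A1 s = B1 s * (s - 1 - s⁻¹) := by
    have e : s ^ 2 * (s - 1 - s⁻¹) = s * (s ^ 2 - s - 1) := by
      field_simp
    unfold A1 B1
    rw [div_mul_eq_mul_div, eq_div_iff hd]
    linear_combination (-(s - 2)) * e
  have e : A1 s * (starRingEnd ℂ) (B1 s) = (normSq (B1 s) : ℂ) * (s - 1 - s⁻¹) := by
    rw [hA]
    rw [← mul_conj]
    ring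
  rw [e, im_ofReal_mul]
  have h3 : 0 < normSq (B1 s) := normSq_pos.mpr hB
  apply mul_pos h3
  simp only [sub_im, one_im, inv_im]
  have h4 : 0 < normSq s := normSq_pos.mpr h0
  have : 0 < s.im / normSq s := div_pos hs h4
  rw [neg_div]
  linarith

/-- auxiliary curve -/
noncomputable def w (x t : ℝ) : ℝ := 1 + t ^ 2 / 3 + x / t

noncomputable def gam (x σ t : ℝ) : ℂ := ((1 + σ * Real.sqrt (w x t) : ℝ) : ℂ) + t * I

lemma gam_im (x σ t : ℝ) : (gam x σ t).im = t := by simp [gam]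
lemma gam_re (x σ t : ℝ) : (gam x σ t).re = 1 + σ * Real.sqrt (w x t) := by simp [gam]

lemma hasDerivAt_w (x : ℝ) {t : ℝ} (ht : t ≠ 0) :
    HasDerivAt (w x) (2 * t / 3 - x / t ^ 2) t := by
  have h1 := ((hasDerivAt_id t).pow 2).div_const 3
  have h2 := (hasDerivAt_inv ht).const_mul x
  have h3 := (h1.const_add 1).add h2
  have e : w x = fun t => (1 + t ^ 2 / 3) + x * t⁻¹ := by
    funext t; simp [w, div_eq_mul_inv]
  rw [e]
  refine h3.congr_deriv ?_
  simp
  field_simp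
  ring

lemma hasDerivAt_gam (x σ : ℝ) {t : ℝ} (ht : 0 < t) (hw : 0 < w x t) :
    HasDerivAt (gam x σ) (((σ * ((2 * t / 3 - x / t ^ 2) / (2 * Real.sqrt (w x t))) : ℝ) : ℂ) + I) t := by
  have h1 := (hasDerivAt_w x ht.ne').sqrt hw.ne'
  have h2 := ((h1.const_mul σ).const_add 1).ofReal_comp
  have h3 := ((hasDerivAt_id t).ofReal_comp).mul_const I
  have h4 := h2.add h3
  refine (h4.congr_deriv ?_)
  simp

lemma deriv_sign (x σ : ℝ) (hσ : σ ^ 2 = 1) {t : ℝ} (ht : 0 < t) (hw : 0 < w x t) :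
    ∃ v : ℝ, HasDerivAt (fun t => (B (gam x σ t)).im) v t ∧ 0 < σ * v := by
  have him : 0 < (gam x σ t).im := by rw [gam_im]; exact ht
  have h1 := (hasDerivAt_B him).comp t (hasDerivAt_gam x σ ht hw)
  have h2 := (imCLM.hasFDerivAt (x := B (gam x σ t))).comp_hasDerivAt t h1
  set q : ℝ := Real.sqrt (w x t) with hq
  have hq0 : 0 < q := Real.sqrt_pos.mpr hw
  have hq2 : q ^ 2 = w x t := Real.sq_sqrt hw.le
  set u' : ℝ := σ * ((2 * t / 3 - x / t ^ 2) / (2 * q)) with hu'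
  refine ⟨_, h2, ?_⟩
  have hJ := J_pos him
  have e1 : imCLM (B1 (gam x σ t) * ((u' : ℂ) + I)) =
      (B1 (gam x σ t)).im * u' + (B1 (gam x σ t)).re := by
    simp
    ring
  rw [e1]
  have ere := gam_re x σ t
  have eim := gam_im x σ t
  rw [← hq] at ere
  have a1 : (A1 (gam x σ t)).re = (σ * q) ^ 2 - t ^ 2 - 1 := by
    unfold A1
    simp only [pow_two, sub_re, mul_re, ere, eim, re_ofNat, im_ofNat]
    ring
  have a2 : (A1 (gam x σ t)).im = 2 * (σ * q) * t := by
    unfold A1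
    simp only [pow_two, sub_im, mul_im, ere, eim, re_ofNat, im_ofNat]
    ring
  have a3 : (σ * q) ^ 2 = 1 + t ^ 2 / 3 + x / t := by
    rw [mul_pow, hσ, hq2, w]; ring
  have a4 : (2 * (σ * q) * t) * u' = 2 * t ^ 2 / 3 - x / t := by
    have : (2 * (σ * q) * t) * u' = σ ^ 2 * (t * (2 * t / 3 - x / t ^ 2)) := by
      rw [hu']; field_simp
    rw [this, hσ]
    field_simp
  rw [mul_im, conj_re, conj_im, a1, a2, a3] at hJ
  set p := (B1 (gam x σ t)).re
  set r := (B1 (gam x σ t)).im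
  have h6 : 0 < (2 * q * t) * (σ * (r * u' + p)) := by
    have : (2 * q * t) * (σ * (r * u' + p)) = (1 + t ^ 2 / 3 + x / t - t ^ 2 - 1) * -r +
        2 * (σ * q) * t * p := by
      linear_combination r * a4
    rw [this]; exact hJ
  exact (mul_pos_iff_of_pos_left (by positivity)).mp h6

lemma continuousOn_B : ContinuousOn B {s : ℂ | 0 < s.im} :=
  fun _ hs => (hasDerivAt_B hs).continuousAt.continuousWithinAt

lemma w_mono {x t₁ t₂ : ℝ} (h0 : 0 < t₁) (h12 : t₁ < t₂) (hw : 0 ≤ w x t₁) : 0 < w x t₂ := by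
  have h2 : 0 < t₂ := h0.trans h12
  have e1 : t₁ * w x t₁ = t₁ + t₁ ^ 3 / 3 + x := by unfold w; field_simp
  have e2 : t₂ * w x t₂ = t₂ + t₂ ^ 3 / 3 + x := by unfold w; field_simp
  have h3 : 0 ≤ t₁ * w x t₁ := mul_nonneg h0.le hw
  have h4 : t₁ ^ 3 < t₂ ^ 3 := pow_lt_pow_left₀ h12 h0.le (by norm_num)
  have h5 : 0 < t₂ * w x t₂ := by rw [e2]; rw [e1] at h3; linarith
  exact (mul_pos_iff_of_pos_left h2).mp h5

lemma continuousOn_path (x σ : ℝ) {t₁ t₂ : ℝ} (h0 : 0 < t₁) :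
    ContinuousOn (fun t => (B (gam x σ t)).im) (Icc t₁ t₂) := by
  have h1 : ContinuousOn (gam x σ) (Icc t₁ t₂) := by
    unfold gam w
    have hne : ∀ t ∈ Icc t₁ t₂, t ≠ 0 := fun t ht => (h0.trans_le ht.1).ne'
    fun_prop (disch := assumption)
  have h2 : MapsTo (gam x σ) (Icc t₁ t₂) {s : ℂ | 0 < s.im} := by
    intro t ht
    simp only [mem_ofPred_eq, gam_im]
    exact h0.trans_le ht.1
  exact (continuous_im.comp_continuousOn (continuousOn_B.comp h1 h2))

/-- `σ Im B` is strictly increasing along the curve. -/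
lemma path_mono (x σ : ℝ) (hσ : σ ^ 2 = 1) {t₁ t₂ : ℝ} (h0 : 0 < t₁) (h12 : t₁ < t₂)
    (hw : 0 ≤ w x t₁) :
    σ * (B (gam x σ t₁)).im < σ * (B (gam x σ t₂)).im := by
  have hmono : StrictMonoOn (fun t => σ * (B (gam x σ t)).im) (Icc t₁ t₂) := by
    apply strictMonoOn_of_deriv_pos (convex_Icc _ _)
    · exact continuousOn_const.mul (continuousOn_path x σ h0)
    · intro t ht
      rw [interior_Icc] at ht
      obtain ⟨v, hv, hp⟩ := deriv_sign x σ hσ (h0.trans ht.1) (w_mono h0 ht.1 hw)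
      rw [(hv.const_mul σ).deriv]
      exact hp
  exact hmono (left_mem_Icc.mpr h12.le) (right_mem_Icc.mpr h12.le) h12

/-- the argument along horizontal lines -/
noncomputable def th (t ξ : ℝ) : ℝ := (log ((ξ : ℂ) + t * I)).im

lemma hasDerivAt_th {t : ℝ} (ht : 0 < t) (ξ : ℝ) :
    HasDerivAt (th t) (-t / (ξ ^ 2 + t ^ 2)) ξ := by
  have him : ((ξ : ℂ) + t * I) ∈ slitPlane := by
    rw [mem_slitPlane_iff]; right; simp; exact ht.ne'
  have h1 : HasDerivAt (fun x : ℝ => (x : ℂ) + t * I) 1 ξ := by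
    simpa using ((hasDerivAt_id ξ).ofReal_comp).add_const ((t : ℂ) * I)
  have h2 := h1.clog_real him
  have h3 := (imCLM.hasFDerivAt (x := log ((ξ : ℂ) + t * I))).comp_hasDerivAt ξ h2
  refine h3.congr_deriv ?_
  simp [div_im, normSq_apply]
  ring

lemma th_lt {t : ℝ} (ht : 0 < t) {a b : ℝ} (hab : a < b) : th t b < th t a := by
  have : StrictAnti (th t) := by
    apply strictAnti_of_deriv_neg
    intro ξ
    rw [(hasDerivAt_th ht ξ).deriv, neg_div]
    have : 0 < t / (ξ ^ 2 + t ^ 2) := by positivity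
    linarith
  exact this hab

lemma th_bound {t : ℝ} (ht : 0 < t) {a b : ℝ} (ha : 0 < a) (hab : a < b) :
    th t a - th t b ≤ t / a - t / b := by
  have hm : MonotoneOn (fun ξ => th t ξ - t / ξ) (Icc a b) := by
    apply monotoneOn_of_deriv_nonneg (convex_Icc _ _)
    · have hne : ∀ ξ ∈ Icc a b, ξ ≠ 0 := fun ξ hξ => (ha.trans_le hξ.1).ne'
      apply ContinuousOn.sub
      · exact fun ξ _ => (hasDerivAt_th ht ξ).continuousAt.continuousWithinAt
      · fun_prop (disch := assumption)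
    · intro ξ hξ
      rw [interior_Icc] at hξ
      have h0 : 0 < ξ := ha.trans hξ.1
      have h1 := (hasDerivAt_th ht ξ).sub ((hasDerivAt_inv h0.ne').const_mul t)
      have h2 : (fun ξ => th t ξ - t / ξ) = (th t - fun y => t * y⁻¹) := by
        funext y; simp [div_eq_mul_inv]
      rw [h2]
      exact h1.differentiableAt.differentiableWithinAt
    · intro ξ hξ
      rw [interior_Icc] at hξ
      have h0 : 0 < ξ := ha.trans hξ.1
      have h1 := (hasDerivAt_th ht ξ).sub ((hasDerivAt_inv h0.ne').const_mul t)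
      have h2 : (fun ξ => th t ξ - t / ξ) = (th t - fun y => t * y⁻¹) := by
        funext y; simp [div_eq_mul_inv]
      rw [h2, h1.deriv]
      have h3 : t / (ξ ^ 2 + t ^ 2) ≤ t / ξ ^ 2 := by
        apply div_le_div_of_nonneg_left ht.le (by positivity)
        nlinarith [sq_nonneg t]
      have h4 : -t / (ξ ^ 2 + t ^ 2) - t * -(ξ ^ 2)⁻¹ = t / ξ ^ 2 - t / (ξ ^ 2 + t ^ 2) := by
        rw [div_eq_mul_inv t (ξ ^ 2)]; ring
      rw [h4]
      linarith
  have := hm (left_mem_Icc.mpr hab.le) (right_mem_Icc.mpr hab.le) hab.le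
  simp only at this
  linarith

lemma B_im (s : ℂ) : (B s).im = (s.re - 1) * s.im -
    1 / Real.sqrt 5 * (th s.im (s.re - pp) - th s.im (s.re - pm)) := by
  have e : ∀ r : ℝ, s - r = ((s.re - r : ℝ) : ℂ) + s.im * I := by
    intro r; apply Complex.ext <;> simp
  unfold B th
  rw [← e, ← e]
  simp only [sub_im, im_ofReal_mul]
  have : (s ^ 2 / 2).im = s.re * s.im := by
    rw [show s ^ 2 / 2 = ((1 / 2 : ℝ) : ℂ) * (s ^ 2) by push_cast; ring, im_ofReal_mul, pow_two,
      mul_im]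
    ring
  rw [this]
  ring

lemma A_im (s : ℂ) : (A s).im = s.im * ((s.re - 1) ^ 2 - 1 - s.im ^ 2 / 3) := by
  unfold A
  rw [sub_im, show s ^ 3 / 3 = ((1 / 3 : ℝ) : ℂ) * (s ^ 3) by push_cast; ring, im_ofReal_mul]
  simp only [pow_succ, pow_zero, one_mul, mul_im, mul_re]
  ring

lemma w_eq {s : ℂ} (hs : 0 < s.im) : w (A s).im s.im = (s.re - 1) ^ 2 := by
  rw [A_im, w, mul_div_cancel_left₀ _ hs.ne']
  ring

lemma eq_gam {s : ℂ} (hs : 0 < s.im) {σ : ℝ} (hσ : σ ^ 2 = 1) (h : 0 ≤ σ * (s.re - 1)) :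
    s = gam (A s).im σ s.im := by
  have h1 : Real.sqrt ((s.re - 1) ^ 2) = σ * (s.re - 1) := by
    rw [show (s.re - 1) ^ 2 = (σ * (s.re - 1)) ^ 2 by rw [mul_pow, hσ, one_mul]]
    exact Real.sqrt_sq h
  apply Complex.ext
  · rw [gam_re, w_eq hs, h1]
    linear_combination (-(s.re - 1)) * hσ
  · rw [gam_im]

lemma inj_same {s₁ s₂ : ℂ} (h1 : 0 < s₁.im) (h2 : 0 < s₂.im) {σ : ℝ} (hσ : σ ^ 2 = 1)
    (g1 : 0 ≤ σ * (s₁.re - 1)) (g2 : 0 ≤ σ * (s₂.re - 1)) (hA : (A s₁).im = (A s₂).im)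
    (hB : (B s₁).im = (B s₂).im) : s₁ = s₂ := by
  have e1 := eq_gam h1 hσ g1
  have e2 := eq_gam h2 hσ g2
  have w1 : 0 ≤ w (A s₁).im s₁.im := by rw [w_eq h1]; positivity
  have w2 : 0 ≤ w (A s₂).im s₂.im := by rw [w_eq h2]; positivity
  rcases lt_trichotomy s₁.im s₂.im with h | h | h
  · have := path_mono (A s₁).im σ hσ h1 h w1
    rw [← e1, hA, ← e2, hB] at this
    exact absurd this (lt_irrefl _)
  · rw [e1, e2, hA, h]
  · have := path_mono (A s₂).im σ hσ h2 h w2
    rw [← e2, ← hA, ← e1, hB] at this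
    exact absurd this (lt_irrefl _)

lemma lt_mixed {s₁ s₂ : ℂ} (h1 : 0 < s₁.im) (h2 : 0 < s₂.im) (g1 : s₁.re < 1) (g2 : 1 < s₂.re)
    (hA : (A s₁).im = (A s₂).im) : (B s₁).im < (B s₂).im := by
  have e1 := eq_gam h1 (σ := -1) (by norm_num) (by linarith)
  have e2 := eq_gam h2 (σ := 1) (by norm_num) (by linarith)
  have w1 := w_eq h1
  have w2 := w_eq h2
  have p1 : 0 < w (A s₁).im s₁.im := by rw [w1]; nlinarith
  have p2 : 0 < w (A s₂).im s₂.im := by rw [w2]; nlinarith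
  rcases lt_or_ge (A s₁).im 0 with hx | hx
  · -- the level curve is connected
    set x := (A s₁).im with hxdef
    have hcont : ContinuousOn (fun t : ℝ => t + t ^ 3 / 3 + x) (Icc 0 s₁.im) := by fun_prop
    have hq1 : s₁.im + s₁.im ^ 3 / 3 + x = s₁.im * w x s₁.im := by
      unfold w; field_simp
    have hq2 : s₂.im + s₂.im ^ 3 / 3 + x = s₂.im * w x s₂.im := by
      unfold w; field_simp
    have hm : (0 : ℝ) ∈ Icc ((fun t : ℝ => t + t ^ 3 / 3 + x) 0)
        ((fun t : ℝ => t + t ^ 3 / 3 + x) s₁.im) := by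
      constructor
      · simp; exact hx.le
      · simp only; rw [hq1]; positivity
    obtain ⟨t₀, ht₀, hz⟩ := intermediate_value_Icc h1.le hcont hm
    simp only at hz
    have ht0 : 0 < t₀ := by
      rcases ht₀.1.lt_or_eq with h | h
      · exact h
      · rw [← h] at hz; norm_num at hz; linarith
    have hw0 : w x t₀ = 0 := by
      have : t₀ * w x t₀ = t₀ + t₀ ^ 3 / 3 + x := by unfold w; field_simp
      rw [hz] at this
      exact (mul_eq_zero.mp this).resolve_left ht0.ne'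
    have hlt1 : t₀ < s₁.im := by
      rcases ht₀.2.lt_or_eq with h | h
      · exact h
      · rw [h] at hw0; linarith
    rw [← hA] at p2
    have hlt2 : t₀ < s₂.im := by
      by_contra hcon
      push Not at hcon
      rcases hcon.lt_or_eq with h | h
      · have := w_mono h2 h p2.le
        linarith
      · rw [h] at p2; linarith
    have m1 := path_mono x (-1) (by norm_num) ht0 hlt1 hw0.ge
    have m2 := path_mono x 1 (by norm_num) ht0 hlt2 hw0.ge
    rw [← e1] at m1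
    rw [hA, ← e2] at m2
    have e3 : gam x (-1) t₀ = gam x 1 t₀ := by
      unfold gam; rw [hw0]; simp
    rw [e3] at m1
    rw [← hA] at m2
    linarith
  · -- separated by the ray
    have r5 := sqrt5_pos
    have hpm : ∀ s : ℂ, s.re - pp < s.re - pm := by
      intro s; unfold pp pm; linarith
    have hY1 : (B s₁).im < 0 := by
      rw [B_im]
      have := th_lt h1 (hpm s₁)
      have h3 : 0 < 1 / Real.sqrt 5 * (th s₁.im (s₁.re - pp) - th s₁.im (s₁.re - pm)) :=
        mul_pos (by positivity) (by linarith)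
      have h4 : (s₁.re - 1) * s₁.im < 0 := mul_neg_of_neg_of_pos (by linarith) h1
      linarith
    have hY2 : 0 < (B s₂).im := by
      have hu : 1 < s₂.re - 1 := by
        rw [hA] at hx
        have : (s₂.re - 1) ^ 2 = 1 + s₂.im ^ 2 / 3 + (A s₂).im / s₂.im := by
          rw [← w2]; rfl
        have h5 : 0 ≤ (A s₂).im / s₂.im := div_nonneg hx h2.le
        nlinarith [sq_nonneg (s₂.im), mul_pos h2 h2]
      rw [B_im]
      have ha : 0 < s₂.re - pp := by
        have := sqrt5_lt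
        unfold pp; linarith
      have hb := th_bound h2 ha (hpm s₂)
      have hprod : (s₂.re - pp) * (s₂.re - pm) = s₂.re ^ 2 - s₂.re - 1 := by
        unfold pp pm
        linear_combination (-1 / 4 : ℝ) * sqrt5_sq
      have hb0 : 0 < s₂.re - pm := lt_trans ha (hpm s₂)
      have hdiff : s₂.im / (s₂.re - pp) - s₂.im / (s₂.re - pm) =
          s₂.im * Real.sqrt 5 / (s₂.re ^ 2 - s₂.re - 1) := by
        rw [← hprod]
        field_simp
        unfold pp pm
        ring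
      have hden : 1 < s₂.re ^ 2 - s₂.re - 1 := by nlinarith
      have h6 : s₂.im * Real.sqrt 5 / (s₂.re ^ 2 - s₂.re - 1) ≤ s₂.im * Real.sqrt 5 :=
        div_le_self (by positivity) hden.le
      have h7 : 1 / Real.sqrt 5 * (th s₂.im (s₂.re - pp) - th s₂.im (s₂.re - pm)) ≤ s₂.im := by
        rw [div_mul_eq_mul_div, one_mul, div_le_iff₀ r5]
        linarith
      nlinarith
    linarith

/-- The harmonic map `(Im A, Im B)` is injective on the upper half-plane. -/
theorem inj {s₁ s₂ : ℂ} (h1 : 0 < s₁.im) (h2 : 0 < s₂.im) (hA : (A s₁).im = (A s₂).im)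
    (hB : (B s₁).im = (B s₂).im) : s₁ = s₂ := by
  rcases lt_or_ge s₁.re 1 with a | a <;> rcases lt_or_ge s₂.re 1 with b | b
  · exact inj_same h1 h2 (σ := -1) (by norm_num) (by linarith) (by linarith) hA hB
  · rcases b.lt_or_eq with b | b
    · have := lt_mixed h1 h2 a b hA
      linarith
    · exact inj_same h1 h2 (σ := -1) (by norm_num) (by linarith) (by rw [← b]; norm_num) hA hB
  · rcases a.lt_or_eq with a | a
    · have := lt_mixed h2 h1 b a hA.symm
      linarith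
    · exact inj_same h1 h2 (σ := -1) (by norm_num) (by rw [← a]; norm_num) (by linarith) hA hB
  · exact inj_same h1 h2 (σ := 1) (by norm_num) (by linarith) (by linarith) hA hB

end Pool.Agent.H369R3.HS
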