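import Mathlib

set_option autoImplicit false
set_option linter.unusedSectionVars false

open Set Metric

namespace Pool.Agent.H369R3.SubsetRetract

variable {X : Type} [NormedAddCommGroup X] [NormedSpace ℝ X]

/-- the threshold graph: points of `S` at distance at most `t` are joined -/
def G (S : Finset X) (t : ℝ) : SimpleGraph X where
  Adj x y := x ≠ y ∧ x ∈ S ∧ y ∈ S ∧ dist x y ≤ t
  symm := ⟨fun x y h => ⟨h.1.symm, h.2.2.1, h.2.1, by rw [dist_comm]; exact h.2.2.2⟩⟩
  loopless := ⟨fun x h => h.1 rfl⟩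

/-- the single linkage distance, truncated below at `s` -/
noncomputable def v (S : Finset X) (s : ℝ) (p q : X) : ℝ :=
  sInf {t : ℝ | s ≤ t ∧ (G S t).Reachable p q}

noncomputable def wt (S : Finset X) (s : ℝ) (p q : X) : ℝ := max 0 (2 * s - v S s p q)

noncomputable def tot (S : Finset X) (s : ℝ) (p : X) : ℝ := ∑ q ∈ S, wt S s p q

/-- displacement of the point `p` -/
noncomputable def disp (S : Finset X) (s : ℝ) (p : X) : X :=
  (tot S s p)⁻¹ • ∑ q ∈ S, wt S s p q • (q - p)

theorem bdd (S : Finset X) (s : ℝ) (p q : X) :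
    BddBelow {t : ℝ | s ≤ t ∧ (G S t).Reachable p q} := ⟨s, fun _ h => h.1⟩

theorem nonempty (S : Finset X) (s : ℝ) {p q : X} (hp : p ∈ S) (hq : q ∈ S) :
    {t : ℝ | s ≤ t ∧ (G S t).Reachable p q}.Nonempty := by
  refine ⟨max s (dist p q), le_max_left _ _, ?_⟩
  by_cases h : p = q
  · rw [h]
  · exact SimpleGraph.Adj.reachable ⟨h, hp, hq, le_max_right _ _⟩

theorem le_v (S : Finset X) (s : ℝ) {p q : X} (hp : p ∈ S) (hq : q ∈ S) : s ≤ v S s p q :=
  le_csInf (nonempty S s hp hq) fun _ h => h.1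

theorem v_self (S : Finset X) (s : ℝ) {p : X} (hp : p ∈ S) : v S s p p = s := by
  apply le_antisymm _ (le_v S s hp hp)
  exact csInf_le (bdd S s p p) ⟨le_rfl, SimpleGraph.Reachable.refl _⟩

theorem G_mono (S : Finset X) {t t' : ℝ} (h : t ≤ t') : G S t ≤ G S t' := by
  intro x y hxy
  exact ⟨hxy.1, hxy.2.1, hxy.2.2.1, hxy.2.2.2.trans h⟩

theorem v_eq (S : Finset X) (s : ℝ) {p q : X} (hp : p ∈ S) (hq : q ∈ S) (h : dist p q ≤ s)
    (r : X) : v S s p r = v S s q r := by
  unfold v
  congr 1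
  ext t
  simp only [mem_ofPred_eq]
  have hpq : s ≤ t → (G S t).Reachable p q := by
    intro hst
    by_cases h' : p = q
    · rw [h']
    · exact SimpleGraph.Adj.reachable ⟨h', hp, hq, h.trans hst⟩
  constructor
  · rintro ⟨h1, h2⟩
    exact ⟨h1, (hpq h1).symm.trans h2⟩
  · rintro ⟨h1, h2⟩
    exact ⟨h1, (hpq h1).trans h2⟩

theorem walk_dist (S : Finset X) (t : ℝ) {p q : X} (w : (G S t).Walk p q) :
    dist p q ≤ w.length * t := by
  induction w with
  | nil => simp
  | cons h w ih =>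
    rename_i a b c
    have h1 : dist a b ≤ t := h.2.2.2
    have h2 : dist a c ≤ dist a b + dist b c := dist_triangle _ _ _
    rw [SimpleGraph.Walk.length_cons]
    push_cast
    linarith

theorem walk_support (S : Finset X) (t : ℝ) {p q : X} (w : (G S t).Walk p q) (hp : p ∈ S) :
    ∀ x ∈ w.support, x ∈ S := by
  induction w with
  | nil => intro x hx; simp at hx; rw [hx]; exact hp
  | cons h w ih =>
    intro x hx
    rw [SimpleGraph.Walk.support_cons, List.mem_cons] at hx
    rcases hx with rfl | hx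
    · exact hp
    · exact ih h.2.2.1 x hx

theorem reach_dist (S : Finset X) (t : ℝ) (ht : 0 ≤ t) {p q : X} (hp : p ∈ S)
    (h : (G S t).Reachable p q) : dist p q ≤ S.card * t := by
  classical
  obtain ⟨w, hw⟩ := h.exists_isPath
  have h1 := walk_dist S t w
  have h2 : w.support.toFinset ⊆ S := by
    intro x hx
    exact walk_support S t w hp x (List.mem_toFinset.1 hx)
  have h3 : w.support.length ≤ S.card := by
    rw [← List.toFinset_card_of_nodup hw.support_nodup]
    exact Finset.card_le_card h2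
  rw [SimpleGraph.Walk.length_support] at h3
  have h4 : (w.length : ℝ) ≤ S.card := by
    exact_mod_cast (Nat.le_succ _).trans h3
  exact h1.trans (by gcongr)

/-- points of positive weight are close -/
theorem dist_of_wt (S : Finset X) (s : ℝ) (hs : 0 < s) {p q : X} (hp : p ∈ S) (hq : q ∈ S)
    (h : wt S s p q ≠ 0) : dist p q ≤ S.card * (2 * s) := by
  have h1 : v S s p q < 2 * s := by
    by_contra hcon
    push Not at hcon
    apply h
    unfold wt
    exact max_eq_left (by linarith)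
  obtain ⟨t, ⟨ht1, ht2⟩, ht3⟩ := exists_lt_of_csInf_lt (nonempty S s hp hq) h1
  exact (reach_dist S t (by linarith) hp ht2).trans (by gcongr)

theorem wt_nonneg (S : Finset X) (s : ℝ) (p q : X) : 0 ≤ wt S s p q := le_max_left _ _

theorem wt_self (S : Finset X) (s : ℝ) (hs : 0 < s) {p : X} (hp : p ∈ S) : wt S s p p = s := by
  unfold wt
  rw [v_self S s hp, max_eq_right (by linarith)]
  ring

theorem wt_le (S : Finset X) (s : ℝ) (hs : 0 < s) {p q : X} (hp : p ∈ S) (hq : q ∈ S) :
    wt S s p q ≤ s := by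
  unfold wt
  apply max_le hs.le
  have := le_v S s hp hq
  linarith

theorem tot_ge (S : Finset X) (s : ℝ) (hs : 0 < s) {p : X} (hp : p ∈ S) : s ≤ tot S s p := by
  have h1 := Finset.single_le_sum (f := fun q => wt S s p q) (fun q _ => wt_nonneg S s p q) hp
  simp only [wt_self S s hs hp] at h1
  exact h1

theorem tot_le (S : Finset X) (s : ℝ) (hs : 0 < s) {p : X} (hp : p ∈ S) :
    tot S s p ≤ S.card * s := by
  have := Finset.sum_le_card_nsmul S (fun q => wt S s p q) s
    (fun q hq => wt_le S s hs hp hq)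
  rwa [nsmul_eq_mul] at this

/-- the displacement is at most `2 n s` -/
theorem disp_le (S : Finset X) (s : ℝ) (hs : 0 < s) {p : X} (hp : p ∈ S) :
    ‖disp S s p‖ ≤ S.card * (2 * s) := by
  have htot : 0 < tot S s p := hs.trans_le (tot_ge S s hs hp)
  unfold disp
  rw [norm_smul, norm_inv, Real.norm_of_nonneg htot.le, inv_mul_le_iff₀ htot]
  calc ‖∑ q ∈ S, wt S s p q • (q - p)‖ ≤ ∑ q ∈ S, ‖wt S s p q • (q - p)‖ := norm_sum_le _ _
    _ ≤ ∑ q ∈ S, wt S s p q * (S.card * (2 * s)) := by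
        apply Finset.sum_le_sum
        intro q hq
        rw [norm_smul, Real.norm_of_nonneg (wt_nonneg _ _ _ _)]
        by_cases h0 : wt S s p q = 0
        · rw [h0, zero_mul, zero_mul]
        · apply mul_le_mul_of_nonneg_left _ (wt_nonneg _ _ _ _)
          rw [← dist_eq_norm, dist_comm]
          exact dist_of_wt S s hs hp hq h0
    _ = tot S s p * (S.card * (2 * s)) := by rw [tot, Finset.sum_mul]

/-- closest pairs are glued -/
theorem glue (S : Finset X) (s : ℝ) (hs : 0 < s) {p q : X} (hp : p ∈ S) (hq : q ∈ S)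
    (h : dist p q ≤ s) : p + disp S s p = q + disp S s q := by
  have hw : ∀ r, wt S s p r = wt S s q r := by
    intro r; unfold wt; rw [v_eq S s hp hq h r]
  have ht : tot S s p = tot S s q := by
    unfold tot; exact Finset.sum_congr rfl fun r _ => hw r
  have key : ∀ x ∈ S, x + disp S s x = (tot S s x)⁻¹ • ∑ r ∈ S, wt S s x r • r := by
    intro x hx
    have htot : 0 < tot S s x := hs.trans_le (tot_ge S s hs hx)
    have h1 : ∑ r ∈ S, wt S s x r • (r - x) = ∑ r ∈ S, wt S s x r • r - tot S s x • x := by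
      simp only [smul_sub]
      rw [Finset.sum_sub_distrib, tot, Finset.sum_smul]
    unfold disp
    rw [h1, smul_sub, smul_smul, inv_mul_cancel₀ htot.ne', one_smul]
    abel
  rw [key p hp, key q hq, ht]
  congr 1
  exact Finset.sum_congr rfl fun r _ => by rw [hw r]

/-- transport of the single linkage distance under a matching -/
theorem v_le (S T : Finset X) (s s' ε : ℝ) (φ : X → X) (hφ : ∀ x ∈ S, φ x ∈ T)
    (hinj : ∀ x ∈ S, ∀ y ∈ S, φ x = φ y → x = y) (hd : ∀ x ∈ S, dist x (φ x) ≤ ε)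
    (hs : s' ≤ s + 2 * ε) {p q : X} (hp : p ∈ S) (hq : q ∈ S) :
    v T s' (φ p) (φ q) ≤ v S s p q + 2 * ε := by
  have h1 : ∀ t ∈ {t : ℝ | s ≤ t ∧ (G S t).Reachable p q}, v T s' (φ p) (φ q) - 2 * ε ≤ t := by
    rintro t ⟨ht1, ht2⟩
    have h2 : v T s' (φ p) (φ q) ≤ t + 2 * ε := by
      apply csInf_le (bdd T s' _ _)
      refine ⟨by linarith, ?_⟩
      let f : G S t →g G T (t + 2 * ε) :=
        { toFun := φ
          map_rel' := by
            intro a b hab
            refine ⟨fun h => hab.1 (hinj a hab.2.1 b hab.2.2.1 h), hφ a hab.2.1, hφ b hab.2.2.1, ?_⟩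
            have e1 := hd a hab.2.1
            have e2 := hd b hab.2.2.1
            have e3 := hab.2.2.2
            calc dist (φ a) (φ b) ≤ dist (φ a) a + dist a b + dist b (φ b) := dist_triangle4 _ _ _ _
              _ ≤ t + 2 * ε := by rw [dist_comm (φ a)]; linarith }
      exact ht2.map f
    linarith
  have := le_csInf (nonempty S s hp hq) h1
  have h3 : v S s p q = sInf {t : ℝ | s ≤ t ∧ (G S t).Reachable p q} := rfl
  linarith

/-- weighted averages -/
theorem avg_diff {ι : Type*} (A : Finset ι) (w w' : ι → ℝ) (x x' : ι → X) (W W' s η ε M : ℝ)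
    (hs : 0 < s) (hW : s ≤ W) (hW' : 0 < W') (hWd : W = ∑ i ∈ A, w i) (hWd' : W' = ∑ i ∈ A, w' i)
    (hw' : ∀ i ∈ A, 0 ≤ w' i)
    (hdiff : ∀ i ∈ A, |w i - w' i| ≤ η) (hη : 0 ≤ η)
    (hx : ∀ i ∈ A, w i ≠ w' i → ‖x i‖ ≤ M) (hM : 0 ≤ M)
    (hxx : ∀ i ∈ A, ‖x i - x' i‖ ≤ ε)
    (hA' : ‖W'⁻¹ • ∑ i ∈ A, w' i • x' i‖ ≤ M) :
    ‖W⁻¹ • ∑ i ∈ A, w i • x i - W'⁻¹ • ∑ i ∈ A, w' i • x' i‖ ≤
      s⁻¹ * (A.card * (η * (2 * M)) + W' * ε) := by
  have hWpos : 0 < W := hs.trans_le hW
  set a' : X := W'⁻¹ • ∑ i ∈ A, w' i • x' i with ha'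
  have hWa' : ∑ i ∈ A, w' i • x' i = W' • a' := by
    rw [ha', smul_smul, mul_inv_cancel₀ hW'.ne', one_smul]
  have key : W⁻¹ • ∑ i ∈ A, w i • x i - a' =
      W⁻¹ • (∑ i ∈ A, (w i - w' i) • (x i - a') + ∑ i ∈ A, w' i • (x i - x' i)) := by
    have e1 : ∑ i ∈ A, (w i - w' i) • (x i - a') =
        ∑ i ∈ A, w i • x i - ∑ i ∈ A, w' i • x i - (W - W') • a' := by
      rw [hWd, hWd', sub_smul, Finset.sum_smul, Finset.sum_smul, ← Finset.sum_sub_distrib,
        ← Finset.sum_sub_distrib, ← Finset.sum_sub_distrib]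
      apply Finset.sum_congr rfl
      intro i _
      rw [smul_sub, sub_smul, sub_smul]
    have e2 : ∑ i ∈ A, w' i • (x i - x' i) = ∑ i ∈ A, w' i • x i - W' • a' := by
      rw [← hWa', ← Finset.sum_sub_distrib]
      apply Finset.sum_congr rfl
      intro i _
      rw [smul_sub]
    rw [e1, e2]
    have e3 : ∑ i ∈ A, w i • x i - ∑ i ∈ A, w' i • x i - (W - W') • a' +
        (∑ i ∈ A, w' i • x i - W' • a') = ∑ i ∈ A, w i • x i - W • a' := by
      rw [sub_smul]; abel
    rw [e3, smul_sub, smul_smul, inv_mul_cancel₀ hWpos.ne', one_smul]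
  rw [key, norm_smul, norm_inv, Real.norm_of_nonneg hWpos.le]
  have h1 : ‖∑ i ∈ A, (w i - w' i) • (x i - a')‖ ≤ A.card * (η * (2 * M)) := by
    calc ‖∑ i ∈ A, (w i - w' i) • (x i - a')‖ ≤ ∑ i ∈ A, ‖(w i - w' i) • (x i - a')‖ :=
          norm_sum_le _ _
      _ ≤ ∑ i ∈ A, η * (2 * M) := by
          apply Finset.sum_le_sum
          intro i hi
          rw [norm_smul, Real.norm_eq_abs]
          by_cases h : w i = w' i
          · rw [h, sub_self, abs_zero, zero_mul]; positivity
          · have h2 := hdiff i hi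
            have h3 : ‖x i - a'‖ ≤ 2 * M := by
              have := norm_sub_le (x i) a'
              have := hx i hi h
              linarith
            gcongr
      _ = A.card * (η * (2 * M)) := by rw [Finset.sum_const, nsmul_eq_mul]
  have h2 : ‖∑ i ∈ A, w' i • (x i - x' i)‖ ≤ W' * ε := by
    calc ‖∑ i ∈ A, w' i • (x i - x' i)‖ ≤ ∑ i ∈ A, ‖w' i • (x i - x' i)‖ := norm_sum_le _ _
      _ ≤ ∑ i ∈ A, w' i * ε := by
          apply Finset.sum_le_sum
          intro i hi
          rw [norm_smul, Real.norm_of_nonneg (hw' i hi)]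
          have h5 := hxx i hi
          have h6 := hw' i hi
          gcongr
      _ = W' * ε := by rw [hWd', Finset.sum_mul]
  have h3 : W⁻¹ ≤ s⁻¹ := by gcongr
  have h4 := norm_add_le (∑ i ∈ A, (w i - w' i) • (x i - a')) (∑ i ∈ A, w' i • (x i - x' i))
  gcongr
  linarith

end Pool.Agent.H369R3.SubsetRetract
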