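import Mathlib
import Pool.Agent.H369R3.SubsetRetract

set_option autoImplicit false
set_option linter.unusedSectionVars false

open Set Metric

namespace Pool.Agent.H369R3.SubsetRetract

variable {X : Type} [NormedAddCommGroup X] [NormedSpace ℝ X]

/-- comparison of displacements for matched finite sets -/
theorem disp_diff (S T : Finset X) (n : ℕ) (hn : 1 ≤ n) (hS : S.card = n) (hT : T.card = n)
    (s s' ε : ℝ) (hs : 0 < s) (hs' : 0 < s') (hε : 0 ≤ ε) (h2 : 2 * ε ≤ s)
    (h12 : s' ≤ s + 2 * ε) (h21 : s ≤ s' + 2 * ε) (φ : X → X)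
    (hφ : ∀ x ∈ S, φ x ∈ T) (hsurj : ∀ y ∈ T, ∃ x ∈ S, φ x = y)
    (hinj : ∀ x ∈ S, ∀ y ∈ S, φ x = φ y → x = y) (hd : ∀ x ∈ S, dist x (φ x) ≤ ε)
    (p : X) (hp : p ∈ S) :
    ‖disp S s p - disp T s' (φ p)‖ ≤ 88 * n ^ 2 * ε := by
  classical
  -- inverse map
  choose! ψ hψ using hsurj
  have hψφ : ∀ x ∈ S, ψ (φ x) = x := by
    intro x hx
    exact hinj _ (hψ (φ x) (hφ x hx)).1 x hx (hψ (φ x) (hφ x hx)).2
  have hTimg : T = S.image φ := by
    ext y
    rw [Finset.mem_image]
    constructor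
    · intro hy; exact ⟨ψ y, (hψ y hy).1, (hψ y hy).2⟩
    · rintro ⟨x, hx, rfl⟩; exact hφ x hx
  have hv1 : ∀ q ∈ S, v T s' (φ p) (φ q) ≤ v S s p q + 2 * ε := fun q hq =>
    v_le S T s s' ε φ hφ hinj hd h12 hp hq
  have hv2 : ∀ q ∈ S, v S s p q ≤ v T s' (φ p) (φ q) + 2 * ε := by
    intro q hq
    have := v_le T S s' s ε ψ (fun y hy => (hψ y hy).1)
      (fun y hy z hz hyz => by rw [← (hψ y hy).2, ← (hψ z hz).2, hyz])
      (fun y hy => by
        have h3 := hd (ψ y) (hψ y hy).1
        rw [(hψ y hy).2, dist_comm] at h3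
        exact h3) h21 (hφ p hp) (hφ q hq)
    rwa [hψφ p hp, hψφ q hq] at this
  have hw : ∀ q ∈ S, |wt S s p q - wt T s' (φ p) (φ q)| ≤ 6 * ε := by
    intro q hq
    unfold wt
    rw [max_comm 0 (2 * s - v S s p q), max_comm 0 (2 * s' - v T s' (φ p) (φ q))]
    refine (abs_max_sub_max_le_abs _ _ _).trans ?_
    have e1 := hv1 q hq
    have e2 := hv2 q hq
    rw [abs_le]
    constructor <;> linarith
  have hnpos : (1 : ℝ) ≤ n := by exact_mod_cast hn
  set M : ℝ := n * (2 * s) + n * (2 * s') + 2 * ε with hM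
  have hMnn : 0 ≤ M := by positivity
  have hsumT : ∀ g : X → ℝ, ∑ q ∈ T, g q = ∑ q ∈ S, g (φ q) := by
    intro g
    rw [hTimg, Finset.sum_image]
    intro x hx y hy hxy
    exact hinj x hx y hy hxy
  have hsumT' : ∀ g : X → X, ∑ q ∈ T, g q = ∑ q ∈ S, g (φ q) := by
    intro g
    rw [hTimg, Finset.sum_image]
    intro x hx y hy hxy
    exact hinj x hx y hy hxy
  have hdispT : disp T s' (φ p) = (tot T s' (φ p))⁻¹ • ∑ q ∈ S, wt T s' (φ p) (φ q) • (φ q - φ p) := by
    unfold disp
    rw [hsumT' (fun q => wt T s' (φ p) q • (q - φ p))]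
  have hbound := avg_diff (X := X) S (fun q => wt S s p q) (fun q => wt T s' (φ p) (φ q))
    (fun q => q - p) (fun q => φ q - φ p) (tot S s p) (tot T s' (φ p)) s (6 * ε) (2 * ε) M hs
    (tot_ge S s hs hp) (hs'.trans_le (tot_ge T s' hs' (hφ p hp))) rfl
    (by unfold tot; exact hsumT (fun q => wt T s' (φ p) q))
    (fun q _ => wt_nonneg _ _ _ _) hw (by positivity)
    (by
      intro q hq hne
      by_cases h0 : wt S s p q = 0
      · have h1 : wt T s' (φ p) (φ q) ≠ 0 := by
          intro h1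
          exact hne (by simp only [h0, h1])
        have h3 := dist_of_wt T s' hs' (hφ p hp) (hφ q hq) h1
        rw [hT] at h3
        have h4 : dist q p ≤ dist q (φ q) + dist (φ q) (φ p) + dist (φ p) p := dist_triangle4 _ _ _ _
        have h5 := hd q hq
        have h6 := hd p hp
        rw [dist_comm] at h6
        rw [dist_comm (φ p)] at h3
        rw [← dist_eq_norm]
        have : 0 ≤ n * (2 * s) := by positivity
        linarith
      · have h3 := dist_of_wt S s hs hp hq h0
        rw [hS, dist_comm] at h3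
        rw [← dist_eq_norm]
        have : 0 ≤ n * (2 * s') := by positivity
        linarith)
    hMnn
    (by
      intro q hq
      have h5 := hd q hq
      have h6 := hd p hp
      rw [dist_eq_norm] at h5 h6
      have e1 : q - p - (φ q - φ p) = (q - φ q) - (p - φ p) := by abel
      rw [e1]
      exact (norm_sub_le _ _).trans (by linarith))
    (by
      rw [← hdispT]
      have h3 := disp_le T s' hs' (hφ p hp)
      rw [hT] at h3
      have : 0 ≤ n * (2 * s) := by positivity
      linarith)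
  rw [hdispT]
  have hd1 : disp S s p = (tot S s p)⁻¹ • ∑ q ∈ S, wt S s p q • (q - p) := rfl
  rw [hd1]
  refine hbound.trans ?_
  have htl : tot T s' (φ p) ≤ n * s' := by
    have := tot_le T s' hs' (hφ p hp)
    rwa [hT] at this
  have hs's : s' ≤ 2 * s := by linarith
  have hM7 : M ≤ 7 * n * s := by
    have e1 : (n : ℝ) * (2 * s') ≤ n * (2 * (2 * s)) := by gcongr
    have e2 : s ≤ n * s := by nlinarith
    rw [hM]; linarith
  rw [hS, inv_mul_le_iff₀ hs]
  calc (n : ℝ) * (6 * ε * (2 * M)) + tot T s' (φ p) * (2 * ε)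
      ≤ n * (6 * ε * (2 * (7 * n * s))) + (n * (2 * s)) * (2 * ε) := by gcongr; exact htl.trans (by gcongr)
    _ = 84 * n ^ 2 * s * ε + 4 * (n * s * ε) := by ring
    _ ≤ 84 * n ^ 2 * s * ε + 4 * (n * (n * s * ε)) := by
        have e3 : 0 ≤ (n : ℝ) * s * ε := by positivity
        nlinarith
    _ = s * (88 * n ^ 2 * ε) := by ring

/-- a matching of well separated sets -/
theorem matching (S T : Set X) (hTf : T.Finite) (ε : ℝ)
    (hST : ∀ x ∈ S, ∃ y ∈ T, dist x y ≤ ε) (hsep : 2 * ε < S.infsep) :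
    ∃ φ : X → X, (∀ x ∈ S, φ x ∈ T) ∧ (∀ x ∈ S, dist x (φ x) ≤ ε) ∧
      (∀ x ∈ S, ∀ y ∈ S, φ x = φ y → x = y) ∧ S.ncard ≤ T.ncard := by
  choose! φ hφ using hST
  have hinj : ∀ x ∈ S, ∀ y ∈ S, φ x = φ y → x = y := by
    intro x hx y hy hxy
    by_contra hne
    have h1 := infsep_le_dist_of_mem hx hy hne
    have h2 := (hφ x hx).2
    have h3 := (hφ y hy).2
    have h4 : dist x y ≤ dist x (φ x) + dist (φ y) y := by
      rw [hxy]; exact dist_triangle _ _ _
    rw [dist_comm (φ y)] at h4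
    linarith
  refine ⟨φ, fun x hx => (hφ x hx).1, fun x hx => (hφ x hx).2, hinj, ?_⟩
  exact ncard_le_ncard_of_injOn φ (fun x hx => (hφ x hx).1) (fun x hx y hy h => hinj x hx y hy h) hTf

theorem matching_full (S T : Set X) (hSf : S.Finite) (hTf : T.Finite) (hSn : S.Nontrivial)
    (ε : ℝ) (hcard : S.ncard = T.ncard)
    (hST : ∀ x ∈ S, ∃ y ∈ T, dist x y ≤ ε) (hsep : 2 * ε < S.infsep) :
    ∃ φ : X → X, (∀ x ∈ S, φ x ∈ T) ∧ (∀ x ∈ S, dist x (φ x) ≤ ε) ∧
      (∀ x ∈ S, ∀ y ∈ S, φ x = φ y → x = y) ∧ (∀ y ∈ T, ∃ x ∈ S, φ x = y) ∧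
      T.infsep ≤ S.infsep + 2 * ε ∧ S.infsep ≤ T.infsep + 2 * ε := by
  obtain ⟨φ, h1, h2, h3, -⟩ := matching S T hTf ε hST hsep
  have himg : φ '' S = T := by
    apply eq_of_subset_of_ncard_le _ _ hTf
    · rintro _ ⟨x, hx, rfl⟩; exact h1 x hx
    · rw [InjOn.ncard_image (fun x hx y hy h => h3 x hx y hy h), hcard]
  have hsurj : ∀ y ∈ T, ∃ x ∈ S, φ x = y := by
    intro y hy
    rw [← himg] at hy
    exact hy
  refine ⟨φ, h1, h2, h3, hsurj, ?_, ?_⟩
  · obtain ⟨x, hx, y, hy, hxy, hd⟩ := hSf.infsep_exists_of_nontrivial hSn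
    have hne : φ x ≠ φ y := fun h => hxy (h3 x hx y hy h)
    have e1 := infsep_le_dist_of_mem (h1 x hx) (h1 y hy) hne
    have e2 : dist (φ x) (φ y) ≤ dist (φ x) x + dist x y + dist y (φ y) := dist_triangle4 _ _ _ _
    have e3 := h2 x hx
    have e4 := h2 y hy
    rw [dist_comm (φ x) x] at e2
    linarith
  · have hTn : T.Nontrivial := by
      obtain ⟨x, hx, y, hy, hxy⟩ := hSn
      exact ⟨φ x, h1 x hx, φ y, h1 y hy, fun h => hxy (h3 x hx y hy h)⟩
    obtain ⟨a, ha, b, hb, hab, hd⟩ := hTf.infsep_exists_of_nontrivial hTn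
    obtain ⟨x, hx, rfl⟩ := hsurj a ha
    obtain ⟨y, hy, rfl⟩ := hsurj b hb
    have hxy : x ≠ y := fun h => hab (by rw [h])
    have e1 := infsep_le_dist_of_mem hx hy hxy
    have e2 : dist x y ≤ dist x (φ x) + dist (φ x) (φ y) + dist (φ y) y := dist_triangle4 _ _ _ _
    have e3 := h2 x hx
    have e4 := h2 y hy
    rw [dist_comm (φ y) y] at e2
    linarith

open Classical in
/-- the retraction `X(n) → X(n-1)` -/
noncomputable def retr (n : ℕ) (S : Set X) : Set X :=
  if h : S.Finite ∧ S.ncard = n then (fun p => p + disp h.1.toFinset S.infsep p) '' S else S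

theorem retr_of_eq (n : ℕ) (S : Set X) (hf : S.Finite) (hc : S.ncard = n) :
    retr n S = (fun p => p + disp hf.toFinset S.infsep p) '' S := by
  unfold retr
  rw [dif_pos ⟨hf, hc⟩]

theorem retr_of_ne (n : ℕ) (S : Set X) (hc : S.ncard ≠ n) : retr n S = S := by
  unfold retr
  rw [dif_neg (fun h => hc h.2)]

theorem nontriv (n : ℕ) (hn : 2 ≤ n) (S : Set X) (hf : S.Finite) (hc : S.ncard = n) :
    S.Nontrivial := by
  have := hf.to_subtype
  rw [← one_lt_ncard_iff_nontrivial]
  omega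

theorem retr_card (n : ℕ) (hn : 2 ≤ n) (S : Set X) (hne : S.Nonempty) (hf : S.Finite)
    (hc : S.ncard ≤ n) : (retr n S).Nonempty ∧ (retr n S).Finite ∧ (retr n S).ncard ≤ n - 1 := by
  by_cases h : S.ncard = n
  · rw [retr_of_eq n S hf h]
    refine ⟨hne.image _, hf.image _, ?_⟩
    have hnt := nontriv n hn S hf h
    have hpos : 0 < S.infsep := (hf.infsep_pos_iff_nontrivial).2 hnt
    obtain ⟨x, hx, y, hy, hxy, hd⟩ := hf.infsep_exists_of_nontrivial hnt
    have hle := ncard_image_le (f := fun p => p + disp hf.toFinset S.infsep p) hf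
    have hneq : ((fun p => p + disp hf.toFinset S.infsep p) '' S).ncard ≠ S.ncard := by
      intro heq
      have hinj := (ncard_image_iff hf).1 heq
      apply hxy
      apply hinj hx hy
      exact glue hf.toFinset S.infsep hpos (hf.mem_toFinset.2 hx) (hf.mem_toFinset.2 hy) hd.ge
    omega
  · rw [retr_of_ne n S h]
    exact ⟨hne, hf, by omega⟩

theorem retr_one_side (n : ℕ) (hn : 2 ≤ n) (S T : Set X)
    (hSf : S.Finite) (hTf : T.Finite) (hSc : S.ncard ≤ n) (hTc : T.ncard ≤ n)
    (ε : ℝ) (hε : 0 ≤ ε) (hST : ∀ x ∈ S, ∃ y ∈ T, dist x y ≤ ε)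
    (hTS : ∀ y ∈ T, ∃ x ∈ S, dist y x ≤ ε) :
    ∀ x ∈ retr n S, ∃ y ∈ retr n T, dist x y ≤ 100 * n ^ 2 * ε := by
  have hn1 : (2 : ℝ) ≤ n := by exact_mod_cast hn
  have hcardS : S.ncard = n → (hSf.toFinset).card = n := by
    intro h; rw [← ncard_eq_toFinset_card S hSf, h]
  have hcardT : T.ncard = n → (hTf.toFinset).card = n := by
    intro h; rw [← ncard_eq_toFinset_card T hTf, h]
  have hnn : (n : ℝ) * ε ≤ n ^ 2 * ε := by
    have : 0 ≤ (n : ℝ) * ε := by positivity
    nlinarith
  have hee : ε ≤ n ^ 2 * ε := by nlinarith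
  have hnε : 0 ≤ (n : ℝ) * ε := by positivity
  -- small separation estimate for T
  have hTsmall : T.ncard = n → (S.ncard = n → S.infsep ≤ 2 * ε) → T.infsep ≤ 4 * ε := by
    intro hT hS
    by_contra hcon
    push Not at hcon
    have hTn := nontriv n hn T hTf hT
    by_cases hSn : S.ncard = n
    · obtain ⟨φ, -, -, -, -, h5, h6⟩ := matching_full T S hTf hSf hTn ε (by rw [hT, hSn]) hTS
        (by linarith)
      have := hS hSn
      linarith
    · obtain ⟨φ, -, -, -, h4⟩ := matching T S hSf ε hTS (by linarith)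
      omega
  by_cases hS : S.ncard = n
  · have hSn := nontriv n hn S hSf hS
    have hspos : 0 < S.infsep := (hSf.infsep_pos_iff_nontrivial).2 hSn
    rw [retr_of_eq n S hSf hS]
    rintro _ ⟨p, hp, rfl⟩
    have hp' : p ∈ hSf.toFinset := hSf.mem_toFinset.2 hp
    by_cases hsmall : 2 * ε < S.infsep
    · have hT : T.ncard = n := by
        obtain ⟨φ, -, -, -, h4⟩ := matching S T hTf ε hST hsmall
        omega
      have hTn := nontriv n hn T hTf hT
      have htpos : 0 < T.infsep := (hTf.infsep_pos_iff_nontrivial).2 hTn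
      obtain ⟨φ, h1, h2, h3, h4, h5, h6⟩ := matching_full S T hSf hTf hSn ε (by rw [hS, hT]) hST
        hsmall
      rw [retr_of_eq n T hTf hT]
      refine ⟨φ p + disp hTf.toFinset T.infsep (φ p), ⟨φ p, h1 p hp, rfl⟩, ?_⟩
      have key := disp_diff hSf.toFinset hTf.toFinset n (by omega) (hcardS hS) (hcardT hT)
        S.infsep T.infsep ε hspos htpos hε hsmall.le h5 h6 φ
        (fun x hx => hTf.mem_toFinset.2 (h1 x (hSf.mem_toFinset.1 hx)))
        (fun y hy => by
          obtain ⟨x, hx, hxy⟩ := h4 y (hTf.mem_toFinset.1 hy)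
          exact ⟨x, hSf.mem_toFinset.2 hx, hxy⟩)
        (fun x hx y hy h => h3 x (hSf.mem_toFinset.1 hx) y (hSf.mem_toFinset.1 hy) h)
        (fun x hx => h2 x (hSf.mem_toFinset.1 hx)) p hp'
      rw [dist_eq_norm]
      have e1 : p + disp hSf.toFinset S.infsep p - (φ p + disp hTf.toFinset T.infsep (φ p)) =
          (p - φ p) + (disp hSf.toFinset S.infsep p - disp hTf.toFinset T.infsep (φ p)) := by abel
      rw [e1]
      have e2 := h2 p hp
      rw [dist_eq_norm] at e2
      have e3 : 0 ≤ (n : ℝ) ^ 2 * ε := by positivity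
      refine (norm_add_le _ _).trans ?_
      nlinarith
    · push Not at hsmall
      obtain ⟨q, hq, hpq⟩ := hST p hp
      have e1 := disp_le hSf.toFinset S.infsep hspos hp'
      rw [hcardS hS] at e1
      have e1' : ‖disp hSf.toFinset S.infsep p‖ ≤ 4 * (n * ε) := by
        refine e1.trans ?_
        have : (n : ℝ) * (2 * S.infsep) ≤ n * (2 * (2 * ε)) := by gcongr
        linarith
      by_cases hT : T.ncard = n
      · have hTn := nontriv n hn T hTf hT
        have htpos : 0 < T.infsep := (hTf.infsep_pos_iff_nontrivial).2 hTn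
        have ht4 := hTsmall hT (fun _ => hsmall)
        rw [retr_of_eq n T hTf hT]
        refine ⟨q + disp hTf.toFinset T.infsep q, ⟨q, hq, rfl⟩, ?_⟩
        have e2 := disp_le hTf.toFinset T.infsep htpos (hTf.mem_toFinset.2 hq)
        rw [hcardT hT] at e2
        have e2' : ‖disp hTf.toFinset T.infsep q‖ ≤ 8 * (n * ε) := by
          refine e2.trans ?_
          have : (n : ℝ) * (2 * T.infsep) ≤ n * (2 * (4 * ε)) := by gcongr
          linarith
        rw [dist_eq_norm] at hpq ⊢
        have e3 : p + disp hSf.toFinset S.infsep p - (q + disp hTf.toFinset T.infsep q) =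
            (p - q) + (disp hSf.toFinset S.infsep p - disp hTf.toFinset T.infsep q) := by abel
        rw [e3]
        refine (norm_add_le _ _).trans ?_
        have e4 := norm_sub_le (disp hSf.toFinset S.infsep p) (disp hTf.toFinset T.infsep q)
        linarith
      · rw [retr_of_ne n T hT]
        refine ⟨q, hq, ?_⟩
        rw [dist_eq_norm] at hpq ⊢
        have e3 : p + disp hSf.toFinset S.infsep p - q = (p - q) + disp hSf.toFinset S.infsep p := by
          abel
        rw [e3]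
        refine (norm_add_le _ _).trans ?_
        linarith
  · rw [retr_of_ne n S hS]
    intro x hx
    obtain ⟨q, hq, hxq⟩ := hST x hx
    by_cases hT : T.ncard = n
    · have hTn := nontriv n hn T hTf hT
      have htpos : 0 < T.infsep := (hTf.infsep_pos_iff_nontrivial).2 hTn
      have ht4 := hTsmall hT (fun h => absurd h hS)
      rw [retr_of_eq n T hTf hT]
      refine ⟨q + disp hTf.toFinset T.infsep q, ⟨q, hq, rfl⟩, ?_⟩
      have e2 := disp_le hTf.toFinset T.infsep htpos (hTf.mem_toFinset.2 hq)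
      rw [hcardT hT] at e2
      have e2' : ‖disp hTf.toFinset T.infsep q‖ ≤ 8 * (n * ε) := by
        refine e2.trans ?_
        have : (n : ℝ) * (2 * T.infsep) ≤ n * (2 * (4 * ε)) := by gcongr
        linarith
      rw [dist_eq_norm] at hxq ⊢
      have e3 : x - (q + disp hTf.toFinset T.infsep q) = (x - q) - disp hTf.toFinset T.infsep q := by
        abel
      rw [e3]
      refine (norm_sub_le _ _).trans ?_
      linarith
    · rw [retr_of_ne n T hT]
      exact ⟨q, hq, by linarith⟩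

theorem near_of_hausdorff (S T : Set X) (hS : S.Nonempty) (hSf : S.Finite) (hT : T.Nonempty)
    (hTf : T.Finite) : ∀ x ∈ S, ∃ y ∈ T, dist x y ≤ hausdorffDist S T := by
  intro x hx
  obtain ⟨y, hy, hxy⟩ := hTf.isCompact.exists_infDist_eq_dist hT x
  refine ⟨y, hy, ?_⟩
  rw [← hxy]
  exact infDist_le_hausdorffDist_of_mem hx
    (hausdorffEDist_ne_top_of_nonempty_of_bounded hS hT hSf.isBounded hTf.isBounded)

theorem main (n : ℕ) (hn : 2 ≤ n) :
    ∃ (r : Set X → Set X) (L : ℝ),
        (∀ S : Set X, S.Nonempty → S.Finite → S.ncard ≤ n →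
          (r S).Nonempty ∧ (r S).Finite ∧ (r S).ncard ≤ n - 1) ∧
        (∀ S : Set X, S.Nonempty → S.Finite → S.ncard ≤ n - 1 → r S = S) ∧
        (∀ S T : Set X, S.Nonempty → S.Finite → S.ncard ≤ n →
          T.Nonempty → T.Finite → T.ncard ≤ n →
          Metric.hausdorffDist (r S) (r T) ≤ L * Metric.hausdorffDist S T) := by
  refine ⟨retr n, 100 * n ^ 2, fun S hne hf hc => retr_card n hn S hne hf hc, ?_, ?_⟩
  · intro S _ _ hc
    exact retr_of_ne n S (by omega)
  · intro S T hSne hSf hSc hTne hTf hTc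
    have h1 := near_of_hausdorff S T hSne hSf hTne hTf
    have h2 := near_of_hausdorff T S hTne hTf hSne hSf
    rw [hausdorffDist_comm] at h2
    have hε : 0 ≤ hausdorffDist S T := hausdorffDist_nonneg
    apply hausdorffDist_le_of_mem_dist (by positivity)
    · exact retr_one_side n hn S T hSf hTf hSc hTc _ hε h1 h2
    · exact retr_one_side n hn T S hTf hSf hTc hSc _ hε h2 h1

end Pool.Agent.H369R3.SubsetRetract
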